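import Mathlib

namespace Pool.Agent.P.MP_fb2360_al

open Finset

lemma shearer {Γ : Type*} [Group Γ] [Finite Γ] (H : Subgroup Γ) (K : ℕ → Subgroup Γ)
    (π : Finset ℕ) : ∃ a : ℕ → ℕ, (∀ p, 1 ≤ a p) ∧ ∏ p ∈ π, a p = (π.inf K).relIndex H ∧
      ∀ T ⊆ π, ∏ p ∈ T, a p ≤ (T.inf K).relIndex H := by
  have hne : ∀ A B : Subgroup Γ, A.relIndex B ≠ 0 := fun A B => Subgroup.index_ne_zero_of_finite
  induction π using Finset.induction_on with
  | empty =>
    refine ⟨fun _ => 1, fun _ => le_rfl, by simp, fun T hT => ?_⟩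
    rw [Finset.subset_empty.mp hT]
    simp
  | insert q π hq ih =>
    obtain ⟨a, h1, h2, h3⟩ := ih
    set b := (K q).relIndex (π.inf K ⊓ H) with hb
    have hupd : ∀ T ⊆ π, ∏ p ∈ T, Function.update a q b p = ∏ p ∈ T, a p := fun T hT =>
      Finset.prod_congr rfl fun p hp => Function.update_of_ne (fun h : p = q => hq (h ▸ hT hp)) _ _
    refine ⟨Function.update a q b, fun p => ?_, ?_, fun T hT => ?_⟩
    · by_cases h : p = q
      · rw [h, Function.update_self]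
        exact Nat.pos_of_ne_zero (hne _ _)
      · rw [Function.update_of_ne h]
        exact h1 p
    · rw [Finset.prod_insert hq, Function.update_self, hupd π le_rfl, h2, Finset.inf_insert,
        Subgroup.relIndex_inf_mul_relIndex]
    · by_cases hqT : q ∈ T
      · have hT' : T.erase q ⊆ π := Finset.subset_insert_iff.mp hT
        rw [← Finset.insert_erase hqT, Finset.prod_insert (Finset.notMem_erase q T),
          Function.update_self, hupd _ hT', Finset.inf_insert,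
          ← Subgroup.relIndex_inf_mul_relIndex]
        exact Nat.mul_le_mul (Subgroup.relIndex_le_of_le_right
          (inf_le_inf_right H (Finset.inf_mono hT')) (hne _ _)) (h3 _ hT')
      · have hT' : T ⊆ π := (Finset.subset_insert_iff_of_notMem hqT).mp hT
        rw [hupd _ hT']
        exact h3 _ hT'

variable {A : Type*} [CommGroup A] [Finite A]

instance enough : HasEnoughRootsOfUnity ℂ (Monoid.exponent A) :=
  haveI : NeZero ((Monoid.exponent A : ℕ) : ℂ) :=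
    ⟨by exact_mod_cast Monoid.exponent_ne_zero_of_finite⟩
  inferInstance

instance finDual : Finite (A →* ℂˣ) :=
  Finite.of_equiv _ (CommGroup.monoidHom_mulEquiv_of_hasEnoughRootsOfUnity A ℂ).some.toEquiv.symm

open Classical in
lemma card_ann [Fintype (A →* ℂˣ)] (x : A) :
    orderOf x * #{ψ : A →* ℂˣ | ψ x = 1} = Fintype.card (A →* ℂˣ) := by
  have h1 := CommGroup.card_domRestrictHom_ker ℂ (Subgroup.zpowers x)
  rw [← Nat.card_eq_fintype_card, CommGroup.card_monoidHom_of_hasEnoughRootsOfUnity,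
    (Subgroup.zpowers x).card_eq_card_quotient_mul_card_subgroup, ← h1, Nat.card_zpowers,
    mul_comm, Nat.card_eq_fintype_card, Fintype.card_subtype]
  congr 2
  ext ψ
  simp only [Finset.mem_filter, Finset.mem_univ, true_and, MonoidHom.mem_ker]
  constructor
  · intro h
    ext ⟨_, k, rfl⟩
    simp [h]
  · intro h
    exact DFunLike.congr_fun h ⟨x, Subgroup.mem_zpowers x⟩

open Classical in
lemma pow_four_le (π : Finset ℕ) (j : ℕ → A) (hj : ∀ p ∈ π, (orderOf (j p)).Prime) (a : ℕ → ℕ)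
    (ha : ∀ p, 1 ≤ a p) (d : ℕ) (h : ∀ l : ℕ, l.Prime → ∀ ψ : A →* ℂˣ,
      ∏ p ∈ π with ψ (j p) ≠ 1 ∨ orderOf (j p) = l, a p ≤ d) :
    (∏ p ∈ π, a p) ^ 4 ≤ d ^ 5 := by
  have := Fintype.ofFinite (A →* ℂˣ)
  set N := Fintype.card (A →* ℂˣ) with hN
  set e : ℕ → (A →* ℂˣ) → ℕ → ℕ := fun l ψ p =>
    if ψ (j p) ≠ 1 ∨ orderOf (j p) = l then 1 else 0 with he
  have h1 : ∀ l : ℕ, l.Prime → ∀ ψ, ∏ p ∈ π, a p ^ e l ψ p ≤ d := by
    intro l hl ψ
    refine le_trans (le_of_eq ?_) (h l hl ψ)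
    rw [Finset.prod_filter]
    refine Finset.prod_congr rfl fun p _ => ?_
    simp only [he]
    split_ifs <;> simp
  have h2 : ∏ ψ : A →* ℂˣ, ∏ p ∈ π, a p ^ (3 * e 2 ψ p + 2 * e 3 ψ p) ≤ (d ^ 5) ^ N := by
    rw [hN, ← Finset.card_univ]
    refine Finset.prod_le_pow_card _ _ _ fun ψ _ => ?_
    simp only [pow_add, pow_mul', Finset.prod_mul_distrib, Finset.prod_pow]
    rw [show d ^ 5 = d ^ 3 * d ^ 2 by ring]
    exact Nat.mul_le_mul (Nat.pow_le_pow_left (h1 2 Nat.prime_two ψ) 3)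
      (Nat.pow_le_pow_left (h1 3 Nat.prime_three ψ) 2)
  have h3 : ∀ p ∈ π, 4 * N ≤ ∑ ψ : A →* ℂˣ, (3 * e 2 ψ p + 2 * e 3 ψ p) := by
    intro p hp
    have hc := card_ann (j p)
    set z := #{ψ : A →* ℂˣ | ψ (j p) = 1} with hz
    have hs : ∀ l, ∑ ψ : A →* ℂˣ, e l ψ p + (if orderOf (j p) = l then 0 else z) = N := by
      intro l
      simp only [he]
      split_ifs with h4
      · simp [h4, hN]
      · simp only [h4, or_false]
        rw [← Finset.card_filter, add_comm]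
        exact Finset.card_filter_add_card_filter_not _
    rw [Finset.sum_add_distrib, ← Finset.mul_sum, ← Finset.mul_sum]
    have h5 := hs 2
    have h6 := hs 3
    rw [← hN] at hc
    by_cases q2 : orderOf (j p) = 2
    · rw [q2] at hc h5 h6
      simp at h5 h6
      omega
    by_cases q3 : orderOf (j p) = 3
    · rw [q3] at hc h5 h6
      simp at h5 h6
      omega
    rw [if_neg q2] at h5
    rw [if_neg q3] at h6
    have h7 : 5 ≤ orderOf (j p) := (hj p hp).five_le_of_ne_two_of_ne_three q2 q3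
    have h8 : 5 * z ≤ N := hc ▸ Nat.mul_le_mul_right z h7
    omega
  rw [Finset.prod_comm] at h2
  simp only [Finset.prod_pow_eq_pow_sum] at h2
  have h4 : ((∏ p ∈ π, a p) ^ 4) ^ N ≤ (d ^ 5) ^ N := by
    refine le_trans ?_ h2
    rw [← pow_mul, ← Finset.prod_pow]
    exact Finset.prod_le_prod' fun p hp => Nat.pow_le_pow_right (ha p) (h3 p hp)
  exact (Nat.pow_le_pow_iff_left Fintype.card_ne_zero).mp h4

omit [Finite A] in
lemma combine (π : Finset ℕ) (j : ℕ → A) (hj : ∀ p ∈ π, (orderOf (j p)).Prime) (l : ℕ)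
    (h : ∀ q, q.Prime → q ≠ l → ∃ ψ : A →* ℂˣ, ∀ p ∈ π, orderOf (j p) = q → ψ (j p) ≠ 1) :
    ∃ ψ : A →* ℂˣ, ∀ p ∈ π, ψ (j p) ≠ 1 ∨ orderOf (j p) = l := by
  choose! ψ hψ using h
  set Q := (π.image fun p => orderOf (j p)).erase l with hQ
  have hQp : ∀ q ∈ Q, q.Prime := by
    intro q hq
    obtain ⟨p, hp, rfl⟩ := Finset.mem_image.mp (Finset.mem_of_mem_erase hq)
    exact hj p hp
  refine ⟨∏ q ∈ Q, ψ q ^ ∏ r ∈ Q.erase q, r, fun p hp => ?_⟩
  by_cases hl : orderOf (j p) = l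
  · exact Or.inr hl
  left
  have hq0 : orderOf (j p) ∈ Q := Finset.mem_erase.mpr ⟨hl, Finset.mem_image_of_mem _ hp⟩
  rw [MonoidHom.finsetProd_apply, Finset.prod_eq_single_of_mem _ hq0]
  · rw [MonoidHom.pow_apply]
    intro h1
    refine hψ _ (hj p hp) hl p hp rfl ?_
    have h2 : ψ (orderOf (j p)) (j p) ^ orderOf (j p) = 1 := by
      rw [← map_pow, pow_orderOf_eq_one, map_one]
    refine (pow_eq_one_iff_of_coprime ?_).mp ⟨h1, h2⟩
    refine Nat.Coprime.prod_left fun r hr => ?_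
    exact (Nat.coprime_primes (hQp r (Finset.mem_of_mem_erase hr)) (hj p hp)).mpr
      (Finset.ne_of_mem_erase hr)
  · intro q _ hne
    obtain ⟨k, hk⟩ := Finset.dvd_prod_of_mem (fun r : ℕ => r)
      (Finset.mem_erase.mpr ⟨hne.symm, hq0⟩ : orderOf (j p) ∈ Q.erase q)
    rw [MonoidHom.pow_apply, hk, pow_mul, ← map_pow, pow_orderOf_eq_one, map_one, one_pow]

lemma avoid (S : Finset ℕ) (j : ℕ → A) (q : ℕ) (hq : 2 ≤ q) (hS : ∀ p ∈ S, orderOf (j p) = q)
    (hc : S.card ≤ q) : ∃ ψ : A →* ℂˣ, ∀ p ∈ S, ψ (j p) ≠ 1 := by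
  classical
  have := Fintype.ofFinite (A →* ℂˣ)
  by_contra hcon
  push Not at hcon
  set N := Fintype.card (A →* ℂˣ) with hN
  have hsub : (Finset.univ : Finset (A →* ℂˣ)) ⊆
      insert 1 (S.biUnion fun p => ({ψ | ψ (j p) = 1} : Finset (A →* ℂˣ)).erase 1) := by
    intro ψ _
    by_cases h1 : ψ = 1
    · simp [h1]
    · obtain ⟨p, hp, h2⟩ := hcon ψ
      exact Finset.mem_insert_of_mem (Finset.mem_biUnion.mpr ⟨p, hp, by simp [h1, h2]⟩)
  have h1 := (Finset.card_le_card hsub).trans (Finset.card_insert_le _ _)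
  obtain ⟨p0, hp0, -⟩ := hcon 1
  have h0 := card_ann (j p0)
  set z := #{ψ : A →* ℂˣ | ψ (j p0) = 1} with hz
  rw [hS p0 hp0] at h0
  have hz0 : 0 < z := Finset.card_pos.mpr ⟨1, by simp⟩
  have h2 : (S.biUnion fun p => ({ψ | ψ (j p) = 1} : Finset (A →* ℂˣ)).erase 1).card ≤
      S.card * (z - 1) := by
    refine Finset.card_biUnion_le_card_mul _ _ _ fun p hp => le_of_eq ?_
    rw [Finset.card_erase_of_mem (by simp)]
    have h3 := card_ann (j p)
    rw [hS p hp, ← h0] at h3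
    rw [Nat.eq_of_mul_eq_mul_left (by omega) h3]
  rw [Finset.card_univ, ← h0] at h1
  have h4 : S.card * (z - 1) ≤ q * (z - 1) := Nat.mul_le_mul_right _ hc
  obtain ⟨y, hy⟩ : ∃ y, z = y + 1 := ⟨z - 1, by omega⟩
  rw [hy, Nat.add_sub_cancel] at h2 h4
  rw [hy, mul_add] at h1
  omega

lemma cover_six (π : Finset ℕ) (j : ℕ → A) (hj : ∀ p ∈ π, (orderOf (j p)).Prime)
    (hπ : π.card ≤ 6) : ∃ l : ℕ, l.Prime ∧ ∃ ψ : A →* ℂˣ,
      ∀ p ∈ π, ψ (j p) ≠ 1 ∨ orderOf (j p) = l := by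
  have : ∃ l : ℕ, l.Prime ∧ ∀ q, q.Prime → q ≠ l → #{p ∈ π | orderOf (j p) = q} ≤ q := by
    by_cases h : ∃ l : ℕ, l.Prime ∧ l < #{p ∈ π | orderOf (j p) = l}
    · obtain ⟨l, hl, h1⟩ := h
      refine ⟨l, hl, fun q hq hql => ?_⟩
      by_contra h2
      have h3 : #{p ∈ π | orderOf (j p) = q} + #{p ∈ π | orderOf (j p) = l} ≤ π.card := by
        rw [← Finset.card_union_of_disjoint]
        · exact Finset.card_le_card (Finset.union_subset (Finset.filter_subset _ _)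
            (Finset.filter_subset _ _))
        · exact Finset.disjoint_filter.mpr fun p _ h4 h5 => hql (h4.symm.trans h5)
      have := hl.two_le
      have := hq.two_le
      omega
    · push Not at h
      exact ⟨2, Nat.prime_two, fun q hq _ => h q hq⟩
  obtain ⟨l, hl, h⟩ := this
  refine ⟨l, hl, combine π j hj l fun q hq hql => ?_⟩
  obtain ⟨ψ, hψ⟩ := avoid _ j q hq.two_le (fun p hp => (Finset.mem_filter.mp hp).2) (h q hq hql)
  exact ⟨ψ, fun p hp h1 => hψ p (Finset.mem_filter.mpr ⟨hp, h1⟩)⟩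

lemma cover_cyc (π : Finset ℕ) (j : ℕ → A) (hj : ∀ p ∈ π, (orderOf (j p)).Prime) (l : ℕ)
    (h : ∀ x y : A, (orderOf x).Prime → orderOf x ≠ l → orderOf y = orderOf x →
      x ∈ Subgroup.zpowers y) : ∃ ψ : A →* ℂˣ, ∀ p ∈ π, ψ (j p) ≠ 1 ∨ orderOf (j p) = l := by
  refine combine π j hj l fun q hq hql => ?_
  by_cases h0 : ∃ x : A, orderOf x = q
  · obtain ⟨x, rfl⟩ := h0
    obtain ⟨ψ, hψ⟩ := CommGroup.exists_apply_ne_one_of_hasEnoughRootsOfUnity A ℂ (a := x)
      (fun h1 => hq.ne_one (by rw [h1, orderOf_one]))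
    refine ⟨ψ, fun p _ h1 h2 => hψ ?_⟩
    obtain ⟨k, hk⟩ := h x (j p) hq hql h1
    rw [← hk, map_zpow, h2, one_zpow]
  · exact ⟨1, fun p _ h1 => absurd ⟨_, h1⟩ h0⟩

end Pool.Agent.P.MP_fb2360_al
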