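import Mathlib

namespace Pool.Agent.P.MP_fb2360_al

/-- The cyclotomic field `ℚ_n = ℚ(e^{2πi/n})`. -/
noncomputable def cyc (n : ℕ) : IntermediateField ℚ ℂ :=
  IntermediateField.adjoin ℚ {Complex.exp (2 * Real.pi * Complex.I / n)}

/-- The conductor of `F`: the least positive `n` with `F ⊆ ℚ_n`. -/
noncomputable def fieldCond (F : IntermediateField ℚ ℂ) : ℕ := sInf {n | 0 < n ∧ F ≤ cyc n}

end Pool.Agent.P.MP_fb2360_al
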