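import Pool.Agent.P.MP_fb2360_al.Main
import Pool.Agent.P.MP_fb2360_al.Defs

namespace Pool.Agent.P.MP_fb2360_al

open IntermediateField

lemma lift_hom {R S M : Type*} [CommRing R] [IsDomain R] [Field S] [Algebra R S] [FaithfulSMul R S]
    [Algebra.IsAlgebraic R S] [Field M] [IsAlgClosed M] (β : R →+* M)
    (hβ : Function.Injective β) : ∃ s : S →+* M, ∀ r, s (algebraMap R S r) = β r := by
  let := β.toAlgebra
  have : FaithfulSMul R M := (faithfulSMul_iff_algebraMap_injective R M).mpr hβ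
  exact ⟨(IsAlgClosed.lift (R := R) (S := S) (M := M)).toRingHom,
    fun r => (IsAlgClosed.lift (R := R) (S := S) (M := M)).commutes r⟩

lemma ext_aut {K : Type*} [Field K] [Algebra K ℂ] (σ : K ≃+* K) :
    ∃ s : ℂ →+* ℂ, ∀ x : K, s (algebraMap K ℂ x) = algebraMap K ℂ (σ x) := by
  obtain ⟨T, hT⟩ := exists_isTranscendenceBasis K ℂ
  have := hT.isAlgebraic
  set e := hT.1.aevalEquiv.toRingEquiv with he
  set τ := e.symm.trans ((MvPolynomial.mapEquiv T σ).trans e) with hτ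
  obtain ⟨s, hs⟩ := lift_hom (S := ℂ) ((algebraMap _ ℂ).comp τ.toRingHom)
    (Subtype.val_injective.comp τ.injective)
  refine ⟨s, fun x => ?_⟩
  have h1 : ∀ y : K, e (MvPolynomial.C y) = algebraMap K _ y := fun y =>
    hT.1.aevalEquiv.commutes y
  have h2 := hs (algebraMap K _ x)
  rw [← IsScalarTower.algebraMap_apply] at h2
  rw [h2]
  simp only [hτ, ← h1, RingHom.coe_comp, Function.comp_apply, RingEquiv.toRingHom_eq_coe,
    RingEquiv.coe_toRingHom, RingEquiv.trans_apply, RingEquiv.symm_apply_apply,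
    MvPolynomial.mapEquiv_apply, MvPolynomial.map_C]
  rw [h1, ← IsScalarTower.algebraMap_apply]

/-- the standard primitive root -/
noncomputable def zt (n : ℕ) : ℂ := Complex.exp (2 * Real.pi * Complex.I / n)

lemma zt_prim {n : ℕ} (hn : 0 < n) : IsPrimitiveRoot (zt n) n :=
  Complex.isPrimitiveRoot_exp n hn.ne'

lemma zt_mem (n : ℕ) : zt n ∈ cyc n := mem_adjoin_simple_self ℚ _

lemma mem_cyc {n : ℕ} (hn : 0 < n) {z : ℂ} (hz : z ^ n = 1) : z ∈ cyc n := by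
  have : NeZero n := ⟨hn.ne'⟩
  obtain ⟨i, -, rfl⟩ := (zt_prim hn).eq_pow_of_pow_eq_one hz
  exact pow_mem (zt_mem n) i

lemma cyc_isCyc (n : ℕ) [NeZero n] : IsCyclotomicExtension {n} ℚ (cyc n) := by
  have h := zt_prim (NeZero.pos n)
  change IsCyclotomicExtension {n} ℚ (IntermediateField.adjoin ℚ {zt n}).toSubalgebra
  rw [adjoin_simple_toSubalgebra_of_isAlgebraic
    ((h.isIntegral (NeZero.pos n)).tower_top (A := ℚ)).isAlgebraic]
  exact h.adjoin_isCyclotomicExtension ℚ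

lemma cyc_le {m n : ℕ} (hn : 0 < n) (h : m ∣ n) : cyc m ≤ cyc n := by
  refine adjoin_simple_le_iff.mpr (mem_cyc hn ?_)
  obtain ⟨k, rfl⟩ := h
  have := (zt_prim (Nat.pos_of_mul_pos_right hn)).pow_eq_one
  unfold zt at this
  rw [pow_mul, this, one_pow]

lemma ext_cyc {n : ℕ} (f g : ℂ →+* ℂ) (h : f (zt n) = g (zt n)) : ∀ x ∈ cyc n, f x = g x := by
  intro x hx
  induction hx using adjoin_induction with
  | mem x hx => rw [hx]; exact h
  | algebraMap x => simp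
  | add x y _ _ h1 h2 => rw [map_add, map_add, h1, h2]
  | inv x _ h1 => rw [map_inv₀, map_inv₀, h1]
  | mul x y _ _ h1 h2 => rw [map_mul, map_mul, h1, h2]

lemma exists_s (n : ℕ) [NeZero n] : ∃ s : (ZMod n)ˣ → ℂ →+* ℂ,
    ∀ κ, ∀ z : ℂ, z ^ n = 1 → s κ z = z ^ ex κ := by
  have := cyc_isCyc n
  have := IsCyclotomicExtension.numberField {n} ℚ (cyc n)
  have : ∀ κ : (ZMod n)ˣ, ∃ s : ℂ →+* ℂ, ∀ z : ℂ, z ^ n = 1 → s z = z ^ ex κ := by
    intro κ
    obtain ⟨σ, rfl⟩ := (IsCyclotomicExtension.Rat.galEquivZMod n (cyc n)).surjective κ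
    obtain ⟨s, hs⟩ := ext_aut σ.toRingEquiv
    refine ⟨s, fun z hz => ?_⟩
    have h1 := IsCyclotomicExtension.Rat.galEquivZMod_apply_of_pow_eq n (cyc n) σ
      (x := ⟨z, mem_cyc (NeZero.pos n) hz⟩) (Subtype.ext hz)
    exact (hs ⟨z, mem_cyc (NeZero.pos n) hz⟩).trans (congrArg Subtype.val h1)
  choose s hs using this
  exact ⟨s, hs⟩

variable {n c : ℕ} [NeZero n] (s : (ZMod n)ˣ → ℂ →+* ℂ)

lemma s_congr (hs : ∀ κ, ∀ z : ℂ, z ^ n = 1 → s κ z = z ^ ex κ) (hcn : c ∣ n)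
    {κ κ' : (ZMod n)ˣ} (h : ex κ ≡ ex κ' [MOD c]) : ∀ x ∈ cyc c, s κ x = s κ' x := by
  have hc := (zt_prim (Nat.pos_of_dvd_of_pos hcn (NeZero.pos n))).pow_eq_one
  have hn : zt c ^ n = 1 := by
    obtain ⟨k, rfl⟩ := hcn
    rw [pow_mul, hc, one_pow]
  exact ext_cyc _ _ (by rw [hs _ _ hn, hs _ _ hn, pow_eq_pow_of_modEq h hc])

lemma exists_kappa (hs : ∀ κ, ∀ z : ℂ, z ^ n = 1 → s κ z = z ^ ex κ) (hcn : c ∣ n)
    (τ : cyc c ≃+* cyc c) : ∃ κ, ∀ x : cyc c, s κ x = τ x := by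
  let σ : cyc c ≃ₐ[ℚ] cyc c := AlgEquiv.ofRingEquiv (f := τ) fun x => by simp
  have hc0 := Nat.pos_of_dvd_of_pos hcn (NeZero.pos n)
  have : NeZero c := ⟨hc0.ne'⟩
  have := cyc_isCyc c
  have := IsCyclotomicExtension.numberField {c} ℚ (cyc c)
  have hc := (zt_prim hc0).pow_eq_one
  have hn : zt c ^ n = 1 := by
    obtain ⟨k, rfl⟩ := hcn
    rw [pow_mul, hc, one_pow]
  obtain ⟨κ, hκ⟩ := ZMod.unitsMap_surjective hcn (IsCyclotomicExtension.Rat.galEquivZMod c _ σ)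
  obtain ⟨t, ht⟩ := ext_aut σ.toRingEquiv
  refine ⟨κ, fun x => (ext_cyc (s κ) t ?_ x x.2).trans (ht x)⟩
  have h1 := IsCyclotomicExtension.Rat.galEquivZMod_apply_of_pow_eq c (cyc c) σ
    (x := ⟨zt c, zt_mem c⟩) (Subtype.ext hc)
  rw [hs _ _ hn]
  refine Eq.trans ?_ ((ht ⟨zt c, zt_mem c⟩).trans (congrArg Subtype.val h1)).symm
  refine pow_eq_pow_of_modEq ?_ hc
  rw [← hκ, ZMod.unitsMap_val, ZMod.cast_eq_val, ZMod.val_natCast]
  exact (Nat.mod_modEq _ _).symm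

lemma relfinrank_le (hs : ∀ κ, ∀ z : ℂ, z ^ n = 1 → s κ z = z ^ ex κ) (hcn : c ∣ n)
    (F : IntermediateField ℚ ℂ) (hF : F ≤ cyc c) (H : Subgroup (ZMod n)ˣ)
    (hH : ∀ κ, (∀ x ∈ F, s κ x = x) → κ ∈ H) :
    F.relfinrank (cyc c) ≤ (Kmod n c).relIndex H := by
  have hc0 := Nat.pos_of_dvd_of_pos hcn (NeZero.pos n)
  have : NeZero c := ⟨hc0.ne'⟩
  have := cyc_isCyc c
  have := IsCyclotomicExtension.numberField {c} ℚ (cyc c)
  have hgal := IsCyclotomicExtension.isGalois {c} ℚ (cyc c)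
  have : @IsGalois ℚ _ (cyc c) _ (cyc c).algebra' := hgal
  have h1 := finrank_comap F (cyc c).val
  rw [fieldRange_val] at h1
  rw [← h1, ← IsGalois.card_fixingSubgroup_eq_finrank]
  choose κ hκ using fun σ : (F.comap (cyc c).val).fixingSubgroup =>
    exists_kappa s hs hcn σ.1.toRingEquiv
  have hmem : ∀ σ, κ σ ∈ H := fun σ => hH _ fun x hx =>
    (hκ σ ⟨x, hF hx⟩).trans (congrArg Subtype.val (σ.2 ⟨⟨x, hF hx⟩, hx⟩))
  refine Nat.card_le_card_of_injective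
    (fun σ => (QuotientGroup.mk ⟨κ σ, hmem σ⟩ : H ⧸ (Kmod n c).subgroupOf H)) fun σ σ' h => ?_
  have h2 : ex ((κ σ)⁻¹ * κ σ') ≡ 1 [MOD c] := (QuotientGroup.eq.mp h) hcn
  have h3 : ex (κ σ') ≡ ex (κ σ) [MOD c] := by
    have h4 := (ex_mul (κ σ) ((κ σ)⁻¹ * κ σ')).of_dvd hcn
    rw [mul_inv_cancel_left] at h4
    simpa using h4.trans (h2.mul_left _)
  refine Subtype.ext (AlgEquiv.ext fun x => Subtype.ext ?_)
  exact (hκ σ x).symm.trans ((s_congr s hs hcn h3 x x.2).symm.trans (hκ σ' x))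

lemma exists_inert (hs : ∀ κ, ∀ z : ℂ, z ^ n = 1 → s κ z = z ^ ex κ) (hcn : c ∣ n)
    (F : IntermediateField ℚ ℂ) (hF : F ≤ cyc c) {p : ℕ} (hp : p.Prime) (hpc : p ∣ c)
    (hmin : ¬ F ≤ cyc (c / p)) :
    ∃ κ, Inert n p (c.factorization p) (ex κ) ∧ ∃ x ∈ F, s κ x ≠ x := by
  have hn0 := NeZero.pos n
  have hc0 := Nat.pos_of_dvd_of_pos hcn hn0
  have : NeZero c := ⟨hc0.ne'⟩
  have := cyc_isCyc c
  have := IsCyclotomicExtension.numberField {c} ℚ (cyc c)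
  have hgal := IsCyclotomicExtension.isGalois {c} ℚ (cyc c)
  have : @IsGalois ℚ _ (cyc c) _ (cyc c).algebra' := hgal
  obtain ⟨x, hx, hx'⟩ := SetLike.not_le_iff_exists.mp hmin
  have h1 : (⟨x, hF hx⟩ : cyc c) ∉
      fixedField ((cyc (c / p)).comap (cyc c).val).fixingSubgroup := by
    rw [IsGalois.fixedField_fixingSubgroup]
    exact hx'
  rw [mem_fixedField_iff] at h1
  push Not at h1
  obtain ⟨σ, hσ, hσx⟩ := h1
  obtain ⟨κ0, h0⟩ := exists_kappa s hs hcn σ.toRingEquiv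
  have hdc : c / p ∣ c := Nat.div_dvd_of_dvd hpc
  have hd0 : 0 < c / p := Nat.pos_of_dvd_of_pos hdc hc0
  have h2 : ex κ0 ≡ 1 [MOD c / p] := by
    have h3 := (h0 ⟨zt (c / p), cyc_le hc0 hdc (zt_mem _)⟩).trans
      (congrArg Subtype.val (hσ ⟨⟨zt (c / p), cyc_le hc0 hdc (zt_mem _)⟩, zt_mem _⟩))
    simp only at h3
    rw [hs _ _ (((zt_prim hd0).pow_eq_one_iff_dvd n).mpr (hdc.trans hcn))] at h3
    rw [(zt_prim hd0).eq_orderOf]
    exact ((zt_prim hd0).isOfFinOrder hd0.ne').pow_eq_pow_iff_modEq.mp (by rw [h3, pow_one])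
  obtain ⟨e, n', hn', hn⟩ := Nat.exists_eq_pow_mul_and_not_dvd hn0.ne' p hp.ne_one
  have hcop : ∀ (b m : ℕ), ¬ p ∣ m → (p ^ b).Coprime m := fun b m h =>
    ((Nat.Prime.coprime_iff_not_dvd hp).mpr h).pow_left b
  obtain ⟨k, hk1, hk2⟩ := Nat.chineseRemainder (hcop e n' hn') (ex κ0) 1
  have hkn : k.Coprime n := by
    rw [hn]
    refine Nat.Coprime.mul_right ?_ ?_
    · rw [Nat.Coprime, hk1.gcd_eq]
      exact (ex_coprime κ0).coprime_dvd_right (Dvd.intro _ hn.symm)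
    · rw [Nat.Coprime, hk2.gcd_eq]
      exact Nat.gcd_one_left _
  have hex : ex (ZMod.unitOfCoprime k hkn) ≡ k [MOD n] := by
    unfold ex
    rw [ZMod.coe_unitOfCoprime, ZMod.val_natCast]
    exact Nat.mod_modEq _ _
  have split : ∀ q, q ∣ n → ∃ b q', q = p ^ b * q' ∧ ¬ p ∣ q' ∧ p ^ b ∣ p ^ e ∧ q' ∣ n' := by
    intro q hq
    obtain ⟨b, q', h3, h4⟩ := Nat.exists_eq_pow_mul_and_not_dvd
      (Nat.pos_of_dvd_of_pos hq hn0).ne' p hp.ne_one
    rw [hn, h4] at hq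
    exact ⟨b, q', h4, h3, (hcop b n' hn').dvd_of_dvd_mul_right ((Dvd.intro _ rfl).trans hq),
      (hcop e q' h3).symm.dvd_of_dvd_mul_left ((Dvd.intro_left _ rfl).trans hq)⟩
  refine ⟨ZMod.unitOfCoprime k hkn, fun q hq hq' => (hex.of_dvd hq).trans ?_, x, hx, ?_⟩
  · obtain ⟨b, q', rfl, h3, h4, h5⟩ := split q hq
    refine (Nat.modEq_and_modEq_iff_modEq_mul (hcop b q' h3)).mp
      ⟨(hk1.of_dvd h4).trans (h2.of_dvd ?_), hk2.of_dvd h5⟩
    have hb : b < c.factorization p := by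
      by_contra hb
      exact hq' ((pow_dvd_pow p (not_lt.mp hb)).mul_right _)
    refine Nat.dvd_div_of_mul_dvd ?_
    rw [← pow_succ']
    exact (pow_dvd_pow p hb).trans (Nat.ordProj_dvd c p)
  · rw [s_congr s hs hcn (κ' := κ0) ((hex.of_dvd hcn).trans ?_) x (hF hx), h0 ⟨x, hF hx⟩]
    · exact fun h => hσx (Subtype.ext h)
    · obtain ⟨b, q', hq, h3, h4, h5⟩ := split c hcn
      have h6 : q' ∣ c / p := by
        refine Nat.dvd_div_of_mul_dvd (Nat.Coprime.mul_dvd_of_dvd_of_dvd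
          ((Nat.Prime.coprime_iff_not_dvd hp).mpr h3) hpc (Dvd.intro_left _ hq.symm))
      have h7 := (Nat.modEq_and_modEq_iff_modEq_mul (hcop b q' h3)).mp
        ⟨hk1.of_dvd h4, (hk2.of_dvd h5).trans (h2.of_dvd h6).symm⟩
      rwa [← hq] at h7

lemma exists_res (hs : ∀ κ, ∀ z : ℂ, z ^ n = 1 → s κ z = z ^ ex κ)
    (F : IntermediateField ℚ ℂ) (hF : F ≤ cyc n) (hst : ∀ κ, ∀ x ∈ F, s κ x ∈ F) :
    ∃ r : (ZMod n)ˣ →* (F ≃ₐ[ℚ] F), ∀ κ (x : F), (r κ x : ℂ) = s κ x := by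
  have := cyc_isCyc n
  have := IsCyclotomicExtension.numberField {n} ℚ (cyc n)
  have : FiniteDimensional ℚ F :=
    Module.Finite.of_injective (inclusion hF).toLinearMap (inclusion_injective hF)
  let f : (ZMod n)ˣ → F →ₐ[ℚ] F := fun κ =>
    (((s κ).comp (algebraMap F ℂ)).codRestrict F.toSubfield fun x => hst κ x x.2).toRatAlgHom
  refine ⟨MonoidHom.mk' (fun κ => AlgEquiv.ofBijective (f κ) (f κ).bijective) fun κ κ' => ?_,
    fun _ _ => rfl⟩
  refine AlgEquiv.ext fun x => Subtype.ext ?_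
  have hz := (zt_prim (NeZero.pos n)).pow_eq_one
  refine ext_cyc (s (κ * κ')) ((s κ).comp (s κ')) ?_ x (hF x.2)
  rw [RingHom.comp_apply, hs _ _ hz, hs _ _ hz, map_pow, hs _ _ hz, pow_ex_mul hz]

lemma mem_zpowers_of_index {B : Type*} [Group B] [Finite B] [IsMulCommutative B] (σ : B)
    {l k : ℕ} (hl : l.Prime) (h : (Subgroup.zpowers σ).index = l ^ k) (x y : B)
    (hx : (orderOf x).Prime) (hxl : orderOf x ≠ l) (hy : orderOf y = orderOf x) :
    x ∈ Subgroup.zpowers y := by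
  classical
  set Z := Subgroup.zpowers σ
  have hmem : ∀ w : B, orderOf w = orderOf x → w ∈ Z := by
    intro w hw
    obtain ⟨m, hm⟩ := exists_pow_eq_self_of_coprime (x := w) (n := l ^ k)
      (hw ▸ ((Nat.coprime_primes hl hx).mpr hxl.symm).pow_left k)
    rw [← hm, ← h]
    exact Z.pow_mem (Z.pow_index_mem w) m
  have := Fintype.ofFinite Z
  have h1 := IsCyclic.card_pow_eq_one_le (α := Z) hx.pos
  set y' : Z := ⟨y, hmem y hy⟩
  have hy' : orderOf y' = orderOf x := by rw [← hy, ← Subgroup.orderOf_coe]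
  have h2 : (Finset.univ.filter fun a : Z => a ∈ Subgroup.zpowers y') =
      Finset.univ.filter fun a : Z => a ^ orderOf x = 1 := by
    refine Finset.eq_of_subset_of_card_le (fun a ha => ?_) (h1.trans (le_of_eq ?_))
    · obtain ⟨i, rfl⟩ := (Finset.mem_filter.mp ha).2
      refine Finset.mem_filter.mpr ⟨Finset.mem_univ _, ?_⟩
      simp only
      rw [← zpow_natCast, ← zpow_mul, mul_comm, zpow_mul, zpow_natCast, ← hy', pow_orderOf_eq_one,
        one_zpow]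
    · rw [← Fintype.card_subtype, ← Nat.card_eq_fintype_card, Nat.card_zpowers, hy']
  have h3 : (⟨x, hmem x rfl⟩ : Z) ∈ Finset.univ.filter fun a : Z => a ∈ Subgroup.zpowers y' := by
    rw [h2]
    exact Finset.mem_filter.mpr ⟨Finset.mem_univ _, Subtype.ext (pow_orderOf_eq_one x)⟩
  obtain ⟨i, hi⟩ := (Finset.mem_filter.mp h3).2
  exact ⟨i, congrArg Subtype.val hi⟩

end Pool.Agent.P.MP_fb2360_al
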