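import Pool.Agent.P.MP_fb2360_al.Gal
import Pool.Agent.P.MP_fb2360_al.Comb

namespace Pool.Agent.P.MP_fb2360_al.Joint

open Pool.Agent.P.MP_fb2360_al IntermediateField

universe u

lemma prime_order {A : Type*} [Group A] [Finite A] (x : A) (h : orderOf x ≠ 1) :
    (orderOf (x ^ (orderOf x / (orderOf x).minFac))).Prime := by
  rw [orderOf_pow_orderOf_div (orderOf_pos _).ne' (Nat.minFac_dvd _)]
  exact Nat.minFac_prime h

theorem core {ι : Type} [Fintype ι] [DecidableEq ι] {G : Type u} [Group G] [Fintype G]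
    (ρ : G →* Matrix ι ι ℂ) (hirr : ∑ g, (ρ g⁻¹).trace * (ρ g).trace = Fintype.card G)
    (F : IntermediateField ℚ ℂ) (hF : F = adjoin ℚ (Set.range fun g => (ρ g).trace)) :
    (F.relfinrank (cyc (fieldCond F))) ^ 4 ≤ Fintype.card ι ^ 5 ∧
    ((fieldCond F).primeFactors.card ≤ 6 →
      F.relfinrank (cyc (fieldCond F)) ≤ Fintype.card ι) ∧
    ((∃ (σ : F ≃ₐ[ℚ] F) (l k : ℕ), l.Prime ∧ (Subgroup.zpowers σ).index = l ^ k) →
      F.relfinrank (cyc (fieldCond F)) ≤ Fintype.card ι) := by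
  classical
  have hG0 : 0 < Fintype.card G := Fintype.card_pos
  have hFG : F ≤ cyc (Fintype.card G) := by
    rw [hF, adjoin_le_iff]
    rintro _ ⟨g, rfl⟩
    obtain ⟨m, hm⟩ := trace_pow_idem hG0 (rho_pow ρ (fun _ => pow_card_eq_one) g) (one_mul 1)
      (Commute.one_left _)
    have h1 := hm 1
    rw [pow_one, mul_one] at h1
    simp only [h1, SetLike.mem_coe]
    exact sum_mem fun z hz => mul_mem (pow_mem (mem_cyc hG0 ((mem_rts hG0).mp hz)) _)
      (_root_.natCast_mem _ _)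
  obtain ⟨hc0, hFc⟩ : 0 < fieldCond F ∧ F ≤ cyc (fieldCond F) :=
    Nat.sInf_mem (s := {n | 0 < n ∧ F ≤ cyc n}) ⟨_, hG0, hFG⟩
  have hmin : ∀ m, 0 < m → m < fieldCond F → ¬ F ≤ cyc m := fun m h0 h1 h2 =>
    Nat.notMem_of_lt_sInf h1 ⟨h0, h2⟩
  generalize fieldCond F = c at hc0 hFc hmin ⊢
  obtain ⟨n, hn⟩ : ∃ n, n = c * (2 * Fintype.card G) := ⟨_, rfl⟩
  have hn1 : 1 < n := by
    rw [hn]
    nlinarith
  have hn0 : 0 < n := by omega
  have : NeZero n := ⟨hn0.ne'⟩
  have hcn : c ∣ n := Dvd.intro _ hn.symm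
  have hG : ∀ g : G, g ^ n = 1 := fun g => by
    rw [hn, ← mul_assoc, pow_mul', pow_card_eq_one, one_pow]
  obtain ⟨s, hs⟩ := exists_s n
  have hχ : ∀ g, (ρ g).trace ∈ F := fun g => hF ▸ subset_adjoin _ _ ⟨g, rfl⟩
  have hH : ∀ κ, κ ∈ stab ρ hG ↔ ∀ x ∈ F, s κ x = x := by
    intro κ
    refine ⟨fun h x hx => ?_, fun h g => ?_⟩
    · rw [hF] at hx
      induction hx using adjoin_induction with
      | mem x hx =>
        obtain ⟨g, rfl⟩ := hx
        rw [map_trace_rho ρ hn0 hG _ _ (hs κ)]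
        exact h g
      | algebraMap x => simp
      | add x y _ _ h1 h2 => rw [map_add, h1, h2]
      | inv x _ h1 => rw [map_inv₀, h1]
      | mul x y _ _ h1 h2 => rw [map_mul, h1, h2]
    · rw [← map_trace_rho ρ hn0 hG _ _ (hs κ)]
      exact h _ (hχ g)
  have hj : ∀ p, ∃ j : (ZMod n)ˣ, p ∈ c.primeFactors → Inert n p (c.factorization p) (ex j) ∧
      (orderOf (j : (ZMod n)ˣ ⧸ stab ρ hG)).Prime := by
    intro p
    by_cases hp : p ∈ c.primeFactors
    · have hp1 := Nat.prime_of_mem_primeFactors hp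
      have hp2 := Nat.dvd_of_mem_primeFactors hp
      obtain ⟨κ, hκ, x, hx, hx'⟩ := exists_inert s hs hcn F hFc hp1 hp2
        (hmin _ (Nat.div_pos (Nat.le_of_dvd hc0 hp2) hp1.pos) (Nat.div_lt_self hc0 hp1.one_lt))
      have h1 : orderOf (κ : (ZMod n)ˣ ⧸ stab ρ hG) ≠ 1 := fun h =>
        hx' ((hH κ).mp ((QuotientGroup.eq_one_iff _).mp (orderOf_eq_one_iff.mp h)) x hx)
      refine ⟨κ ^ (orderOf (κ : (ZMod n)ˣ ⧸ stab ρ hG) /
        (orderOf (κ : (ZMod n)ˣ ⧸ stab ρ hG)).minFac), fun _ => ⟨fun q hq hq' => ?_, ?_⟩⟩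
      · exact (Kmod n q).pow_mem (fun _ => hκ q hq hq') _ hq
      · rw [QuotientGroup.mk_pow]
        exact prime_order _ h1
    · exact ⟨1, fun h => absurd h hp⟩
  choose j hj using hj
  set K : ℕ → Subgroup (ZMod n)ˣ := fun p => Kmod n (p ^ c.factorization p) with hK
  have hne : ∀ A B : Subgroup (ZMod n)ˣ, A.relIndex B ≠ 0 := fun A B =>
    Subgroup.index_ne_zero_of_finite
  have hD : F.relfinrank (cyc c) ≤ (c.primeFactors.inf K).relIndex (stab ρ hG) := by
    refine (relfinrank_le s hs hcn F hFc _ fun κ h => (hH κ).mpr h).trans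
      (Subgroup.relIndex_le_of_le_left (fun κ hκ _ => ?_) (hne _ _))
    have h1 := ex_pos hn1 κ
    refine ((Nat.modEq_iff_dvd' h1).mpr ?_).symm
    refine (Nat.dvd_iff_prime_pow_dvd_dvd _ _).mpr fun p k hp hk => ?_
    rcases Nat.eq_zero_or_pos k with rfl | hk0
    · simp
    have hp' : p ∈ c.primeFactors :=
      Nat.mem_primeFactors.mpr ⟨hp, (dvd_pow_self p hk0.ne').trans hk, hc0.ne'⟩
    have h2 : κ ∈ K p := (Finset.inf_le hp' : c.primeFactors.inf K ≤ K p) hκ
    exact (pow_dvd_pow p ((hp.pow_dvd_iff_le_factorization hc0.ne').mp hk)).trans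
      ((Nat.modEq_iff_dvd' h1).mp (h2 ((Nat.ordProj_dvd c p).trans hcn)).symm)
  have hmain : ∀ l : ℕ, l.Prime → ∀ (ψ : (ZMod n)ˣ ⧸ stab ρ hG →* ℂˣ) (T : Finset ℕ),
      T ⊆ c.primeFactors → (∀ p ∈ T, ψ (j p) ≠ 1 ∨ orderOf (j p : (ZMod n)ˣ ⧸ stab ρ hG) = l) →
      (T.inf K).relIndex (stab ρ hG) ≤ Fintype.card ι := by
    intro l hl ψ T hT h
    obtain ⟨g, θ, h1, h2, h3⟩ := exists_eig ρ hn1 hG hirr s hs (stab ρ hG) (fun _ => Iff.rfl) hl ψ T
      c.factorization j fun p hp =>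
        ⟨Nat.prime_of_mem_primeFactors (hT hp), (hj p (hT hp)).1, h p hp⟩
    refine (Subgroup.relIndex_le_of_le_left ?_ (hne _ _)).trans (relIndex_le ρ hG s hs h1 h2)
    exact Finset.le_inf fun p hp κ hκ _ => (hκ (orderOf_dvd_of_pow_eq_one h1)).of_dvd (h3 p hp)
  refine ⟨?_, fun h6 => ?_, ?_⟩
  · obtain ⟨a, h1, h2, h3⟩ := shearer (stab ρ hG) K c.primeFactors
    refine (Nat.pow_le_pow_left (hD.trans h2.ge) 4).trans (pow_four_le _
      (fun p => (j p : (ZMod n)ˣ ⧸ stab ρ hG)) (fun p hp => (hj p hp).2) a h1 _ fun l hl ψ => ?_)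
    exact (h3 _ (Finset.filter_subset _ _)).trans (hmain l hl ψ _ (Finset.filter_subset _ _)
      fun p hp => (Finset.mem_filter.mp hp).2)
  · obtain ⟨l, hl, ψ, hψ⟩ := cover_six _ (fun p => (j p : (ZMod n)ˣ ⧸ stab ρ hG))
      (fun p hp => (hj p hp).2) h6
    exact hD.trans (hmain l hl ψ _ le_rfl hψ)
  · rintro ⟨σ, l, k, hl, hσ⟩
    have hFn := hFc.trans (cyc_le hn0 hcn)
    obtain ⟨r, hr⟩ := exists_res s hs F hFn (fun κ x hx => by
      rw [hF] at hx
      induction hx using adjoin_induction with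
      | mem x hx =>
        obtain ⟨g, rfl⟩ := hx
        rw [map_trace_rho ρ hn0 hG _ _ (hs κ)]
        exact hχ _
      | algebraMap x => simp
      | add x y _ _ h1 h2 => rw [map_add]; exact add_mem h1 h2
      | inv x _ h1 => rw [map_inv₀]; exact inv_mem h1
      | mul x y _ _ h1 h2 => rw [map_mul]; exact mul_mem h1 h2)
    have hker : ∀ κ, κ ∈ stab ρ hG ↔ r κ = 1 := fun κ => (hH κ).trans
      ⟨fun h => AlgEquiv.ext fun x => Subtype.ext ((hr κ x).trans (h x x.2)),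
        fun h x hx => by rw [← hr κ ⟨x, hx⟩, h]; rfl⟩
    set r' := QuotientGroup.lift (stab ρ hG) r fun κ h => (hker κ).mp h with hr'
    have hinj : Function.Injective r' := by
      rw [injective_iff_map_eq_one]
      intro x hx
      obtain ⟨κ, rfl⟩ := QuotientGroup.mk_surjective x
      exact (QuotientGroup.eq_one_iff _).mpr ((hker κ).mpr hx)
    have := cyc_isCyc n
    have := IsCyclotomicExtension.numberField {n} ℚ (cyc n)
    have := IsCyclotomicExtension.isAbelianGalois {n} ℚ (cyc n)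
    have : FiniteDimensional ℚ F :=
      Module.Finite.of_injective (inclusion hFn).toLinearMap (inclusion_injective hFn)
    have : IsAbelianGalois ℚ F := IsAbelianGalois.of_algHom (inclusion hFn).toRingHom.toRatAlgHom
    obtain ⟨ψ, hψ⟩ := cover_cyc _ (fun p => (j p : (ZMod n)ˣ ⧸ stab ρ hG))
      (fun p hp => (hj p hp).2) l (fun x y hx hxl hy => by
        obtain ⟨i, hi⟩ := mem_zpowers_of_index σ hl hσ (r' x) (r' y)
          (by rwa [orderOf_injective r' hinj]) (by rwa [orderOf_injective r' hinj])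
          (by rwa [orderOf_injective r' hinj, orderOf_injective r' hinj])
        exact ⟨i, hinj (by rw [map_zpow]; exact hi)⟩)
    exact hD.trans (hmain l hl ψ _ le_rfl hψ)

/-- For an irreducible complex character `χ` of a finite group with field of values `F`, conductor
`c` and cyclotomic deficiency `D = [ℚ_c : F]`: always `D^4 ≤ χ(1)^5`; and `D ≤ χ(1)` when `c` has at
most six prime divisors or `Gal(F/ℚ)` has a cyclic subgroup of prime power index. -/
theorem joint (G : Type) [Group G] [Finite G] (V : Type) [AddCommGroup V] [Module ℂ V]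
    [FiniteDimensional ℂ V] (ρ : Representation ℂ G V) [ρ.IsIrreducible]
    (F : IntermediateField ℚ ℂ) (hF : F = IntermediateField.adjoin ℚ (Set.range ρ.character)) :
    (F.relfinrank (cyc (fieldCond F))) ^ 4 ≤ Module.finrank ℂ V ^ 5 ∧
    ((fieldCond F).primeFactors.card ≤ 6 →
      F.relfinrank (cyc (fieldCond F)) ≤ Module.finrank ℂ V) ∧
    ((∃ (σ : F ≃ₐ[ℚ] F) (l k : ℕ), l.Prime ∧ (Subgroup.zpowers σ).index = l ^ k) →
      F.relfinrank (cyc (fieldCond F)) ≤ Module.finrank ℂ V) := by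
  have := Fintype.ofFinite G
  let b := Module.finBasis ℂ V
  let M : G →* Matrix (Fin (Module.finrank ℂ V)) (Fin (Module.finrank ℂ V)) ℂ :=
    (LinearMap.toMatrixAlgEquiv b).toRingEquiv.toMonoidHom.comp ρ
  have hM : ∀ g, (M g).trace = ρ.character g := fun g =>
    (LinearMap.trace_eq_matrix_trace ℂ b (ρ g)).symm
  have hc : (Nat.card G : ℂ) ≠ 0 := by exact_mod_cast Nat.card_pos.ne'
  let _ := invertibleOfNonzero hc
  have h1 := Representation.char_orthonormal ρ ρ
  rw [if_pos ⟨Representation.Equiv.refl ρ⟩, inv_mul_eq_one₀ hc, Nat.card_eq_fintype_card] at h1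
  have h2 := core M (by simp only [hM, h1, mul_comm]) F (by simp only [hM, hF])
  rwa [Fintype.card_fin] at h2

end Pool.Agent.P.MP_fb2360_al.Joint
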