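import Pool.Agent.P.MP_fb2360_al.Mat

namespace Pool.Agent.P.MP_fb2360_al

open Finset Matrix

variable {ι : Type} [Fintype ι] [DecidableEq ι] {G : Type*} [Group G]

/-- every element of `W` normalises `⟨c⟩` and has an `l`-power in it -/
def HypC (l : ℕ) (W : Subgroup G) (c : G) : Prop :=
  ¬ l ∣ orderOf c ∧ ∀ u ∈ W, (∃ b : ℕ, u * c * u⁻¹ = c ^ b) ∧ ∃ a j : ℕ, u ^ l ^ a = c ^ j

def Hyp (l : ℕ) (W : Subgroup G) : Prop := ∃ c, HypC l W c

def Inert (n p a k : ℕ) : Prop := ∀ q, q ∣ n → ¬ p ^ a ∣ q → k ≡ 1 [MOD q]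

variable (ρ : G →* Matrix ι ι ℂ) {n : ℕ}

lemma rho_pow (hG : ∀ g : G, g ^ n = 1) (g : G) : ρ g ^ n = 1 := by
  rw [← map_pow, hG, map_one]

omit [Fintype ι] [DecidableEq ι] in
lemma smul_cancel {X : Matrix ι ι ℂ} (hX : X ≠ 0) {a b : ℂ} (h : a • X = b • X) : a = b :=
  smul_left_injective ℂ hX h

lemma HypC.exists_b {l : ℕ} {W : Subgroup G} {c : G} (h : HypC l W c) {u : G} (hu : u ∈ W) :
    ∃ b b' : ℕ, c * u = u * c ^ b' ∧ c ^ (b' * b) = c := by
  obtain ⟨b, hb⟩ := (h.2 u hu).1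
  obtain ⟨b', hb'⟩ := (h.2 u⁻¹ (W.inv_mem hu)).1
  refine ⟨b, b', by rw [← hb']; group, ?_⟩
  rw [mul_comm, pow_mul, ← hb, conj_pow, ← hb']
  group

lemma pr_rho_pr (hn : 0 < n) (hG : ∀ g : G, g ^ n = 1) {c u : G} {b' : ℕ}
    (h : c * u = u * c ^ b') {z η : ℂ} (hz : z ^ n = 1) (hη : η ^ n = 1) :
    pr n (ρ c) z * (ρ u * pr n (ρ c) η) = if z = η ^ b' then ρ u * pr n (ρ c) η else 0 := by
  refine pr_mul_eig hn hz (by rw [← pow_mul, mul_comm, pow_mul, hη, one_pow]) ?_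
  rw [← mul_assoc, ← map_mul, h, map_mul, map_pow, mul_assoc,
    pow_mul_eig (mul_pr hn (rho_pow ρ hG c) hη), mul_smul_comm]

lemma eig_pow (hn : 0 < n) (hG : ∀ g : G, g ^ n = 1) {c : G} {m m' : ℕ} (h : c ^ m = c ^ m')
    {η : ℂ} (hη : η ^ n = 1) (h0 : pr n (ρ c) η ≠ 0) : η ^ m = η ^ m' := by
  have h1 := pow_mul_eig (mul_pr hn (rho_pow ρ hG c) hη) m
  have h2 := pow_mul_eig (mul_pr hn (rho_pow ρ hG c) hη) m'
  rw [← map_pow, h, map_pow, h2] at h1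
  exact (smul_cancel h0 h1).symm

lemma commute_block (hn : 0 < n) (hG : ∀ g : G, g ^ n = 1) {c u : G} {b' : ℕ}
    (h : c * u = u * c ^ b') (S : Finset ℂ) (hS : S ⊆ rts n)
    (hb : ∀ η ∈ rts n, pr n (ρ c) η ≠ 0 → (η ∈ S ↔ η ^ b' ∈ S)) :
    Commute (∑ z ∈ S, pr n (ρ c) z) (ρ u) := by
  classical
  unfold Commute SemiconjBy
  conv_lhs => rw [← mul_one (ρ u), ← sum_pr hn (ρ c), Finset.mul_sum, Finset.mul_sum]
  rw [Finset.mul_sum, ← Finset.sum_subset hS]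
  · refine Finset.sum_congr rfl fun η hη => ?_
    have hη' := (mem_rts hn).mp (hS hη)
    by_cases h0 : pr n (ρ c) η = 0
    · simp [h0]
    rw [Finset.sum_mul, Finset.sum_congr rfl fun z hz =>
      pr_rho_pr ρ hn hG h ((mem_rts hn).mp (hS hz)) hη', Finset.sum_ite_eq',
      if_pos ((hb η (hS hη) h0).mp hη)]
  · intro η hη hηS
    have hη' := (mem_rts hn).mp hη
    by_cases h0 : pr n (ρ c) η = 0
    · simp [h0]
    rw [Finset.sum_mul, Finset.sum_congr rfl fun z hz =>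
      pr_rho_pr ρ hn hG h ((mem_rts hn).mp (hS hz)) hη', Finset.sum_ite_eq',
      if_neg (fun h1 => hηS ((hb η hη h0).mpr h1))]

lemma fix_of_eig (hG : ∀ g : G, g ^ n = 1) {p a k s r : ℕ} (hp : p.Prime) (hk : 0 < k)
    (hI : Inert n p a k) {v : G} (hv : orderOf v = p ^ s * r) (hr : ¬ p ∣ r)
    {X : Matrix ι ι ℂ} {θ : ℂ} (hX : ρ (v ^ r) * X = θ • X) (hθ : X ≠ 0 → ¬ p ^ a ∣ orderOf θ) :
    ρ (v ^ k) * X = ρ v * X := by
  by_cases h0 : X = 0
  · simp [h0]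
  have h1 : θ ^ p ^ s = 1 := by
    have := pow_mul_eig hX (p ^ s)
    rw [← map_pow, ← pow_mul, mul_comm r, ← hv, pow_orderOf_eq_one, map_one, one_mul] at this
    exact (smul_cancel h0 (by rw [one_smul]; exact this)).symm
  have h2 : r * orderOf θ ∣ n := by
    refine Dvd.dvd.trans ?_ (orderOf_dvd_of_pow_eq_one (hG v))
    rw [hv, mul_comm]
    exact Nat.mul_dvd_mul_right (orderOf_dvd_of_pow_eq_one h1) r
  have h3 : ¬ p ^ a ∣ r * orderOf θ := fun h =>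
    hθ h0 (((Nat.Prime.coprime_iff_not_dvd hp).mpr hr).pow_left a |>.dvd_of_dvd_mul_left h)
  obtain ⟨m, hm⟩ := (Nat.modEq_iff_dvd' hk).mp (hI _ h2 h3).symm
  have hk' : k = 1 + r * (orderOf θ * m) := by rw [← mul_assoc, ← hm]; omega
  rw [hk', pow_add, pow_one, map_mul, pow_mul, map_pow, mul_assoc, pow_mul_eig hX, pow_mul,
    pow_orderOf_eq_one, one_pow, one_smul]

lemma exists_split {p : ℕ} (hp : p.Prime) (hn : 0 < n) (hG : ∀ g : G, g ^ n = 1) (v : G) :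
    ∃ s r : ℕ, orderOf v = p ^ s * r ∧ ¬ p ∣ r := by
  have h0 : orderOf v ≠ 0 := (isOfFinOrder_iff_pow_eq_one.mpr ⟨n, hn, hG v⟩).orderOf_pos.ne'
  obtain ⟨s, r, h1, h2⟩ := Nat.exists_eq_pow_mul_and_not_dvd h0 p hp.ne_one
  exact ⟨s, r, h2, h1⟩

lemma inv_caseA (hn : 0 < n) (hG : ∀ g : G, g ^ n = 1) {l p a k : ℕ} (hl : l.Prime)
    (hp : p.Prime) (hpl : p ≠ l) (hk : 0 < k) (hI : Inert n p a k) {W : Subgroup G} {c : G}
    (h : HypC l W c) {v : G} (hv : v ∈ W) {z : ℂ} (hz : z ^ n = 1) (ho : ¬ p ^ a ∣ orderOf z) :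
    ρ (v ^ k) * pr n (ρ c) z = ρ v * pr n (ρ c) z := by
  obtain ⟨s, r, hs, hr⟩ := exists_split hp hn hG v
  obtain ⟨α, j, hj⟩ := (h.2 _ (W.pow_mem hv r)).2
  have h1 : (v ^ r) ^ p ^ s = 1 := by rw [← pow_mul, mul_comm, ← hs, pow_orderOf_eq_one]
  have hcop : (l ^ α).Coprime (orderOf (v ^ r)) :=
    Nat.Coprime.coprime_dvd_right (orderOf_dvd_of_pow_eq_one h1)
      (Nat.Coprime.pow _ _ ((Nat.coprime_primes hl hp).mpr hpl.symm))
  obtain ⟨m, hm⟩ := exists_pow_eq_self_of_coprime hcop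
  refine fix_of_eig ρ hG hp hk hI hs hr (θ := z ^ (j * m)) ?_ fun _ hd => ho ?_
  · rw [← hm, hj, ← pow_mul, map_pow, pow_mul_eig (mul_pr hn (rho_pow ρ hG c) hz)]
  · exact hd.trans (orderOf_pow_dvd _)

lemma inv_caseB (hn : 0 < n) (hG : ∀ g : G, g ^ n = 1) {l a k : ℕ} (hl : l.Prime)
    (hk : 0 < k) (hI : Inert n l a k) {c : G} (hc : ¬ l ∣ orderOf c) {v : G} {z : ℂ}
    (hz : z ^ n = 1) (hcomm : Commute (pr n (ρ c) z) (ρ v))
    (hno : ∀ g θ, θ ^ n = 1 → pr n (ρ g) θ ≠ 0 → orderOf z ∣ orderOf θ → ¬ l ^ a ∣ orderOf θ) :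
    ρ (v ^ k) * pr n (ρ c) z = ρ v * pr n (ρ c) z := by
  by_cases hz0 : pr n (ρ c) z = 0
  · simp [hz0]
  obtain ⟨s, r, hs, hr⟩ := exists_split hl hn hG v
  have h1 : (v ^ r) ^ l ^ s = 1 := by rw [← pow_mul, mul_comm, ← hs, pow_orderOf_eq_one]
  rw [← one_mul (pr n (ρ c) z), ← sum_pr hn (ρ (v ^ r)), Finset.sum_mul, Finset.mul_sum,
    Finset.mul_sum]
  refine Finset.sum_congr rfl fun θ hθ => ?_
  have hθ' := (mem_rts hn).mp hθ
  have hX : ρ (v ^ r) * (pr n (ρ (v ^ r)) θ * pr n (ρ c) z) =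
      θ • (pr n (ρ (v ^ r)) θ * pr n (ρ c) z) := by
    rw [← mul_assoc, mul_pr hn (rho_pow ρ hG _) hθ', smul_mul_assoc]
  refine fix_of_eig ρ hG hl hk hI hs hr hX fun h0 hd => ?_
  have hc2 : Commute (pr n (ρ c) z) (pr n (ρ (v ^ r)) θ) :=
    commute_pr (by rw [map_pow]; exact hcomm.pow_right r) θ
  have hY : ρ c * (pr n (ρ (v ^ r)) θ * pr n (ρ c) z) =
      z • (pr n (ρ (v ^ r)) θ * pr n (ρ c) z) := by
    rw [← hc2.eq, ← mul_assoc, mul_pr hn (rho_pow ρ hG _) hz, smul_mul_assoc]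
  have hZ : ρ (v ^ r * c) * (pr n (ρ (v ^ r)) θ * pr n (ρ c) z) =
      (θ * z) • (pr n (ρ (v ^ r)) θ * pr n (ρ c) z) := by
    rw [map_mul, mul_assoc, hY, mul_smul_comm, hX, smul_smul, mul_comm z]
  have hθz : (θ * z) ^ n = 1 := by rw [mul_pow, hθ', hz, one_mul]
  have hne : pr n (ρ (v ^ r * c)) (θ * z) ≠ 0 := by
    intro h2
    have := pr_mul_eig hn hθz hθz hZ
    rw [h2, zero_mul, if_pos rfl] at this
    exact h0 this.symm
  have hθl : θ ^ l ^ s = 1 := by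
    have := pow_mul_eig hX (l ^ s)
    rw [← map_pow, h1, map_one, one_mul] at this
    exact (smul_cancel h0 (by rw [one_smul]; exact this)).symm
  have hzc : z ^ orderOf c = 1 := by
    have := eig_pow ρ hn hG (c := c) (m := orderOf c) (m' := 0) (by simp) hz hz0
    simpa using this
  have hcop : (orderOf θ).Coprime (orderOf z) :=
    Nat.Coprime.coprime_dvd_left (orderOf_dvd_of_pow_eq_one hθl)
      (Nat.Coprime.coprime_dvd_right (orderOf_dvd_of_pow_eq_one hzc)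
        (((Nat.Prime.coprime_iff_not_dvd hl).mpr hc).pow_left s))
  have hord := (Commute.all θ z).orderOf_mul_eq_mul_orderOf_of_coprime hcop
  exact hno _ _ hθz hne (by rw [hord]; exact Dvd.intro_left _ rfl)
    (by rw [hord]; exact hd.mul_right _)

lemma commute_or_trace (hn : 0 < n) (hG : ∀ g : G, g ^ n = 1) {l : ℕ} {W : Subgroup G} {c : G}
    (h : HypC l W c) {v : G} (hv : v ∈ W) {z : ℂ} (hz : z ^ n = 1) :
    Commute (pr n (ρ c) z) (ρ v) ∨ (ρ v * pr n (ρ c) z).trace = 0 := by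
  classical
  by_cases hz0 : pr n (ρ c) z = 0
  · left
    rw [hz0]
    exact Commute.zero_left _
  obtain ⟨b, b', h1, h2⟩ := h.exists_b hv
  by_cases hb : z = z ^ b'
  · left
    have := commute_block ρ hn hG h1 {z} (by simpa using (mem_rts hn).mpr hz) (by
      intro η hη h0
      simp only [Finset.mem_singleton]
      refine ⟨fun h3 => by rw [h3]; exact hb.symm, fun h3 => ?_⟩
      have h4 := eig_pow ρ hn hG (m' := 1) (by rw [h2, pow_one]) ((mem_rts hn).mp hη) h0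
      have h5 := eig_pow ρ hn hG (m' := 1) (by rw [h2, pow_one]) hz hz0
      rw [pow_one, pow_mul] at h4 h5
      rw [← hb] at h5
      rw [← h4, h3, h5])
    simpa using this
  · right
    have h3 := pr_rho_pr ρ hn hG h1 hz hz
    rw [if_neg hb] at h3
    have h4 := pr_mul_pr hn (rho_pow ρ hG c) hz hz
    rw [if_pos rfl] at h4
    rw [← h4, ← mul_assoc, Matrix.trace_mul_comm, h3, Matrix.trace_zero]

lemma inv_caseB' (hn : 0 < n) (hG : ∀ g : G, g ^ n = 1) {l a k : ℕ} (hl : l.Prime)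
    (hk : 0 < k) (hkn : k.Coprime n) (hI : Inert n l a k) {W : Subgroup G} {c : G}
    (h : HypC l W c) {v : G} (hv : v ∈ W) {z : ℂ} (hz : z ^ n = 1)
    (hno : ∀ g θ, θ ^ n = 1 → pr n (ρ g) θ ≠ 0 → orderOf z ∣ orderOf θ → ¬ l ^ a ∣ orderOf θ) :
    (ρ (v ^ k) * pr n (ρ c) z).trace = (ρ v * pr n (ρ c) z).trace := by
  by_cases hcomm : Commute (pr n (ρ c) z) (ρ v)
  · rw [inv_caseB ρ hn hG hl hk hI h.1 hz hcomm hno]
  · rw [(commute_or_trace ρ hn hG h hv hz).resolve_left hcomm]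
    refine (commute_or_trace ρ hn hG h (W.pow_mem hv k) hz).resolve_left fun h1 => hcomm ?_
    obtain ⟨m, hm⟩ := exists_pow_eq_self_of_coprime
      (Nat.Coprime.coprime_dvd_right (orderOf_dvd_of_pow_eq_one (hG v)) hkn)
    rw [← hm, map_pow]
    exact h1.pow_right m

/-- projector onto the eigenvalues of order `o` -/
noncomputable def prO (n : ℕ) (A : Matrix ι ι ℂ) (o : ℕ) : Matrix ι ι ℂ :=
  ∑ z ∈ (rts n).filter fun z => orderOf z = o, pr n A z

lemma prO_idem (hn : 0 < n) {A : Matrix ι ι ℂ} (hA : A ^ n = 1) (o : ℕ) :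
    prO n A o * prO n A o = prO n A o := by
  classical
  unfold prO
  rw [Finset.mul_sum]
  refine Finset.sum_congr rfl fun η hη => ?_
  rw [Finset.sum_mul, Finset.sum_congr rfl fun z hz => pr_mul_pr hn hA
    ((mem_rts hn).mp (Finset.mem_filter.mp hz).1) ((mem_rts hn).mp (Finset.mem_filter.mp hη).1),
    Finset.sum_ite_eq', if_pos hη]

lemma sum_prO (hn : 0 < n) (A : Matrix ι ι ℂ) : ∑ o ∈ range (n + 1), prO n A o = 1 := by
  unfold prO
  rw [Finset.sum_fiberwise_of_maps_to, sum_pr hn]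
  intro z hz
  exact Finset.mem_range.mpr (Nat.lt_succ_of_le
    (Nat.le_of_dvd hn (orderOf_dvd_of_pow_eq_one ((mem_rts hn).mp hz))))

lemma prO_commute (hn : 0 < n) (hG : ∀ g : G, g ^ n = 1) {l : ℕ} {W : Subgroup G} {c : G}
    (h : HypC l W c) {v : G} (hv : v ∈ W) (o : ℕ) : Commute (prO n (ρ c) o) (ρ v) := by
  obtain ⟨b, b', h1, h2⟩ := h.exists_b hv
  refine commute_block ρ hn hG h1 _ (Finset.filter_subset _ _) fun η hη h0 => ?_
  have hη' := (mem_rts hn).mp hη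
  have h4 := eig_pow ρ hn hG (m' := 1) (by rw [h2, pow_one]) hη' h0
  rw [pow_one, pow_mul] at h4
  have h5 : orderOf (η ^ b') = orderOf η :=
    Nat.dvd_antisymm (orderOf_pow_dvd _) (by
      conv_lhs => rw [← h4]
      exact orderOf_pow_dvd _)
  have h6 : η ^ b' ∈ rts n := (mem_rts hn).mpr (by rw [← pow_mul, mul_comm, pow_mul, hη', one_pow])
  simp only [Finset.mem_filter, hη, h6, h5, true_and]

/-- invariance of the `o`-part under some inertia element -/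
lemma prO_inert (hn : 0 < n) (hG : ∀ g : G, g ^ n = 1) {l : ℕ} (hl : l.Prime)
    (T : Finset ℕ) (a k : ℕ → ℕ) (hT : ∀ p ∈ T, p.Prime ∧ 0 < k p ∧ (k p).Coprime n ∧
      Inert n p (a p) (k p))
    (hno : ∀ g θ, θ ^ n = 1 → pr n (ρ g) θ ≠ 0 → ∃ p ∈ T, ¬ p ^ a p ∣ orderOf θ)
    {W : Subgroup G} {c : G} (h : HypC l W c) (o : ℕ) :
    prO n (ρ c) o = 0 ∨ ∃ p ∈ T, ∀ v ∈ W,
      (ρ (v ^ k p) * prO n (ρ c) o).trace = (ρ v * prO n (ρ c) o).trace := by
  by_cases h0 : prO n (ρ c) o = 0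
  · exact Or.inl h0
  right
  by_cases hA : ∃ p ∈ T, p ≠ l ∧ ¬ p ^ a p ∣ o
  · obtain ⟨p, hp, hpl, ho⟩ := hA
    refine ⟨p, hp, fun v hv => ?_⟩
    unfold prO
    rw [Finset.mul_sum, Finset.mul_sum]
    congr 1
    refine Finset.sum_congr rfl fun z hz => ?_
    obtain ⟨hz1, hz2⟩ := Finset.mem_filter.mp hz
    exact inv_caseA ρ hn hG hl (hT p hp).1 hpl (hT p hp).2.1 (hT p hp).2.2.2 h hv
      ((mem_rts hn).mp hz1) (by rwa [hz2])
  · push Not at hA
    obtain ⟨z0, hz0, hne⟩ := Finset.exists_ne_zero_of_sum_ne_zero h0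
    obtain ⟨hz1, hz2⟩ := Finset.mem_filter.mp hz0
    obtain ⟨p, hp, hpo⟩ := hno c z0 ((mem_rts hn).mp hz1) hne
    have hpl : p = l := by
      by_contra hpl
      exact hpo (hz2 ▸ hA p hp hpl)
    subst hpl
    refine ⟨p, hp, fun v hv => ?_⟩
    unfold prO
    rw [Finset.mul_sum, Finset.mul_sum, Matrix.trace_sum, Matrix.trace_sum]
    refine Finset.sum_congr rfl fun z hz => ?_
    obtain ⟨hz3, hz4⟩ := Finset.mem_filter.mp hz
    refine inv_caseB' ρ hn hG hl (hT p hp).2.1 (hT p hp).2.2.1 (hT p hp).2.2.2 h hv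
      ((mem_rts hn).mp hz3) fun g θ hθ hne' hd hd' => ?_
    obtain ⟨q, hq, hqo⟩ := hno g θ hθ hne'
    by_cases hqp : q = p
    · exact hqo (hqp ▸ hd')
    · exact hqo ((hz4 ▸ hA q hq hqp).trans hd)

/-- invariance of the `o`-part under automorphisms fixing the character -/
lemma prO_fix (hn : 0 < n) (s : ℂ →+* ℂ) (hχ : ∀ g, s (ρ g).trace = (ρ g).trace)
    (c v : G) (o : ℕ) : s (ρ v * prO n (ρ c) o).trace = (ρ v * prO n (ρ c) o).trace := by
  classical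
  have key : ∀ j : ℕ, s (∑ z ∈ (rts n).filter fun z => orderOf z = o, z⁻¹ ^ j) =
      ∑ z ∈ (rts n).filter fun z => orderOf z = o, z⁻¹ ^ j := by
    intro j
    rw [map_sum]
    have hmap : ∀ z ∈ (rts n).filter fun z => orderOf z = o,
        s z ∈ (rts n).filter fun z => orderOf z = o := by
      intro z hz
      obtain ⟨hz1, hz2⟩ := Finset.mem_filter.mp hz
      refine Finset.mem_filter.mpr ⟨(mem_rts hn).mpr ?_, ?_⟩
      · rw [← map_pow, (mem_rts hn).mp hz1, map_one]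
      · rw [← hz2]
        exact orderOf_injective s.toMonoidHom s.injective z
    refine Finset.sum_bij (fun z _ => s z) hmap (fun _ _ _ _ h => s.injective h) ?_ ?_
    · intro w hw
      obtain ⟨z, hz, hzw⟩ := Finset.surj_on_of_inj_on_of_card_le (fun z _ => s z) hmap
        (fun _ _ _ _ h => s.injective h) le_rfl w hw
      exact ⟨z, hz, hzw.symm⟩
    · intro z _
      rw [map_pow, map_inv₀]
  have e : (ρ v * prO n (ρ c) o).trace = (n : ℂ)⁻¹ * ∑ j ∈ range n,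
      (∑ z ∈ (rts n).filter fun z => orderOf z = o, z⁻¹ ^ j) * (ρ (v * c ^ j)).trace := by
    unfold prO pr
    rw [← Finset.smul_sum, Finset.sum_comm, mul_smul_comm, Matrix.trace_smul, smul_eq_mul,
      Finset.mul_sum, Matrix.trace_sum]
    congr 1
    refine Finset.sum_congr rfl fun j _ => ?_
    rw [← Finset.sum_smul, mul_smul_comm, Matrix.trace_smul, smul_eq_mul, map_mul, map_pow]
  rw [e, map_mul, map_inv₀, map_natCast, map_sum]
  simp only [map_mul s, key, hχ]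

end Pool.Agent.P.MP_fb2360_al
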