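import Pool.Agent.P.MP_fb2360_al.Solomon

namespace Pool.Agent.P.MP_fb2360_al

open Finset Matrix

/-- `l` times the algebraic integers -/
def lInt (l : ℕ) : AddSubgroup ℂ where
  carrier := {z | ∃ y, IsIntegral ℤ y ∧ z = l * y}
  zero_mem' := ⟨0, isIntegral_zero, by simp⟩
  add_mem' := by
    rintro _ _ ⟨y, hy, rfl⟩ ⟨y', hy', rfl⟩
    exact ⟨y + y', hy.add hy', by ring⟩
  neg_mem' := by
    rintro _ ⟨y, hy, rfl⟩
    exact ⟨-y, hy.neg, by ring⟩

lemma dvd_of_mem_lInt {l m : ℕ} (hl : 0 < l) (h : (m : ℂ) ∈ lInt l) : l ∣ m := by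
  obtain ⟨y, hy, h⟩ := h
  have hl' : (l : ℂ) ≠ 0 := by exact_mod_cast hl.ne'
  have h1 : y = algebraMap ℚ ℂ (m / l) := by
    simp only [map_div₀, map_natCast, h]
    field_simp
  rw [h1, isIntegral_algebraMap_iff (algebraMap ℚ ℂ).injective,
    IsIntegrallyClosed.isIntegral_iff] at hy
  obtain ⟨k, hk⟩ := hy
  have hl'' : (l : ℚ) ≠ 0 := by exact_mod_cast hl.ne'
  have h2 : (m : ℤ) = l * k := by
    have : (m : ℚ) = l * k := by
      simp only [eq_intCast] at hk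
      rw [hk]
      field_simp
    exact_mod_cast this
  exact Int.natCast_dvd_natCast.mp ⟨k, h2⟩

lemma isIntegral_char {A : Type*} [CommGroup A] [Fintype A] (ψ : A →* ℂˣ) (a : A) :
    IsIntegral ℤ (ψ a : ℂ) :=
  IsIntegral.of_pow Fintype.card_pos (by
    rw [← Units.val_pow_eq_pow_val, ← map_pow, pow_card_eq_one, map_one]
    exact isIntegral_one)

lemma sum_mem_lInt {A : Type*} [CommGroup A] [Fintype A] (ψ : A →* ℂˣ) (F : A → ℕ) (j : A)
    (hF : ∀ a, F (a * j) = F a) {l : ℕ} (h : ψ j ≠ 1 ∨ orderOf j = l) :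
    ∑ a, (ψ a : ℂ) * F a ∈ lInt l := by
  classical
  by_cases hj : ψ j = 1
  · have hl := h.resolve_left (not_not.mpr hj)
    set Z := Subgroup.zpowers j
    have hZ : ∀ z ∈ Z, ∀ a, (ψ (a * z) : ℂ) * F (a * z) = ψ a * F a := by
      intro z hz
      obtain ⟨k, rfl⟩ := (mem_powers_iff_mem_zpowers (x := j) (y := z)).mpr hz
      induction k with
      | zero => simp
      | succ k ih =>
        intro a
        have := ih (Z.pow_mem (Subgroup.mem_zpowers j) k) a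
        simp only at this ⊢
        rw [pow_succ, ← mul_assoc, hF, map_mul, hj, mul_one, this]
    refine ⟨∑ q : A ⧸ Z, (ψ q.out : ℂ) * F q.out, IsIntegral.sum _ fun q _ =>
      (isIntegral_char ψ _).mul (isIntegral_natCast _), ?_⟩
    rw [← Finset.sum_fiberwise (s := Finset.univ) (g := fun a : A => (a : A ⧸ Z)), Finset.mul_sum]
    refine Finset.sum_congr rfl fun q _ => ?_
    rw [Finset.sum_congr rfl (g := fun _ => (ψ q.out : ℂ) * F q.out) (fun a ha => by
      have h1 : ((q.out : A) : A ⧸ Z) = a := by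
        rw [QuotientGroup.out_eq', (Finset.mem_filter.mp ha).2]
      rw [← hZ _ (QuotientGroup.eq.mp h1) q.out, mul_inv_cancel_left]), Finset.sum_const,
      nsmul_eq_mul]
    congr 2
    have := QuotientGroup.card_preimage_mk Z {q}
    rw [Nat.card_unique (α := ({q} : Set (A ⧸ Z))), mul_one, Nat.card_zpowers, hl, Nat.card_eq_fintype_card,
      Fintype.card_subtype] at this
    rw [← this]
    congr 1
    ext a
    simp
  · have h1 : ∑ a, (ψ (a * j) : ℂ) * F (a * j) = ∑ a, (ψ a : ℂ) * F a :=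
      Equiv.sum_comp (Equiv.mulRight j) fun a => (ψ a : ℂ) * F a
    have h2 : ((ψ j : ℂ) - 1) * ∑ a, (ψ a : ℂ) * F a = 0 := by
      rw [sub_mul, one_mul, sub_eq_zero]
      conv_rhs => rw [← h1]
      rw [Finset.mul_sum]
      refine Finset.sum_congr rfl fun a _ => ?_
      rw [hF, map_mul, Units.val_mul]
      ring
    rw [(mul_eq_zero.mp h2).resolve_left (sub_ne_zero.mpr fun h3 => hj (Units.ext h3))]
    exact (lInt l).zero_mem

variable {n : ℕ}

/-- natural representative of a unit -/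
def ex (κ : (ZMod n)ˣ) : ℕ := (κ : ZMod n).val

lemma ex_mul (κ κ' : (ZMod n)ˣ) [NeZero n] : ex (κ * κ') ≡ ex κ * ex κ' [MOD n] := by
  unfold ex
  rw [Units.val_mul, ZMod.val_mul]
  exact Nat.mod_modEq _ _

lemma ex_one : ex (1 : (ZMod n)ˣ) ≡ 1 [MOD n] := by
  unfold ex
  rw [Units.val_one, ZMod.val_one_eq_one_mod]
  exact Nat.mod_modEq _ _

lemma ex_coprime (κ : (ZMod n)ˣ) : (ex κ).Coprime n := ZMod.val_coe_unit_coprime κ

lemma ex_pos (hn : 1 < n) (κ : (ZMod n)ˣ) : 0 < ex κ := by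
  refine Nat.pos_of_ne_zero fun h => ?_
  have := ex_coprime κ
  rw [h, Nat.coprime_zero_left] at this
  omega

lemma pow_ex_mul {M : Type*} [Monoid M] [NeZero n] {x : M} (hx : x ^ n = 1) (κ κ' : (ZMod n)ˣ) :
    x ^ ex (κ * κ') = (x ^ ex κ) ^ ex κ' := by
  rw [← pow_mul]
  exact pow_eq_pow_of_modEq (ex_mul κ κ') hx

lemma pow_ex_one {M : Type*} [Monoid M] {x : M} (hx : x ^ n = 1) :
    x ^ ex (1 : (ZMod n)ˣ) = x := by
  rw [pow_eq_pow_of_modEq ex_one hx, pow_one]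

/-- units congruent to `1` modulo `m` -/
def Kmod (n m : ℕ) [NeZero n] : Subgroup (ZMod n)ˣ where
  carrier := {κ | m ∣ n → ex κ ≡ 1 [MOD m]}
  one_mem' := fun h => ex_one.of_dvd h
  mul_mem' := fun {κ κ'} h h' hm => ((ex_mul κ κ').of_dvd hm).trans (by
    simpa using (h hm).mul (h' hm))
  inv_mem' := fun {κ} h hm => by
    have h1 := (ex_mul κ κ⁻¹).of_dvd hm
    rw [mul_inv_cancel] at h1
    have h2 := (h hm).mul_right (ex κ⁻¹)
    rw [one_mul] at h2
    exact h2.symm.trans (h1.symm.trans (ex_one.of_dvd hm))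

universe u

variable {ι : Type} [Fintype ι] [DecidableEq ι] {G : Type u} [Group G] [Fintype G]
  (ρ : G →* Matrix ι ι ℂ)

/-- the stabiliser of the character -/
def stab [NeZero n] (hG : ∀ g : G, g ^ n = 1) : Subgroup (ZMod n)ˣ where
  carrier := {κ | ∀ g, (ρ (g ^ ex κ)).trace = (ρ g).trace}
  one_mem' := fun g => by rw [pow_ex_one (hG g)]
  mul_mem' := fun {κ κ'} h h' g => by rw [pow_ex_mul (hG g), h', h]
  inv_mem' := fun {κ} h g => by rw [← h, ← pow_ex_mul (hG g), inv_mul_cancel, pow_ex_one (hG g)]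

omit [Fintype G] in
lemma map_trace_rho (hn : 0 < n) (hG : ∀ g : G, g ^ n = 1) (s : ℂ →+* ℂ) (k : ℕ)
    (hs : ∀ z : ℂ, z ^ n = 1 → s z = z ^ k) (g : G) : s (ρ g).trace = (ρ (g ^ k)).trace := by
  simpa using map_trace_idem hn (rho_pow ρ hG g) (one_mul 1) (Commute.one_left _) s k hs

omit [Fintype G] in
lemma conj_rho (hn : 0 < n) (hG : ∀ g : G, g ^ n = 1) (g : G) :
    (ρ g⁻¹).trace = (starRingEnd ℂ) (ρ g).trace := by
  rw [conj_trace hn (rho_pow ρ hG g), ← map_pow]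
  congr 2
  apply inv_eq_of_mul_eq_one_right
  rw [← pow_succ', Nat.sub_add_cancel hn, hG]

omit [DecidableEq ι] in
lemma trace_map' (s : ℂ →+* ℂ) (X : Matrix ι ι ℂ) : (X.map s).trace = s X.trace :=
  (AddMonoidHom.map_trace s X).symm

lemma orth (hn : 0 < n) (hG : ∀ g : G, g ^ n = 1)
    (hirr : ∑ g, (ρ g⁻¹).trace * (ρ g).trace = Fintype.card G) (s : ℂ →+* ℂ) (k : ℕ)
    (hs : ∀ z : ℂ, z ^ n = 1 → s z = z ^ k) (hk : ¬ ∀ g, (ρ (g ^ k)).trace = (ρ g).trace) :
    ∑ g, (ρ g⁻¹).trace * (ρ (g ^ k)).trace = 0 := by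
  obtain ⟨m, hm⟩ := pair_nat (fun g => ρ g) (fun g => (ρ g).map s) (map_mul ρ)
    (fun u v => by rw [map_mul, Matrix.map_mul])
  simp only [trace_map', map_trace_rho ρ hn hG s k hs] at hm
  by_cases hm0 : m = 0
  · rw [hm, hm0, Nat.cast_zero, mul_zero]
  exfalso
  apply hk
  have h1 : ∑ g, (ρ (g ^ k)⁻¹).trace * (ρ (g ^ k)).trace = Fintype.card G := by
    have := congrArg s hirr
    simpa only [map_sum, map_mul s, map_trace_rho ρ hn hG s k hs, map_natCast, inv_pow] using this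
  have h2 : ∑ g, (ρ (g ^ k)⁻¹).trace * (ρ g).trace = Fintype.card G * m := by
    rw [← hm, ← Equiv.sum_comp (Equiv.inv G)]
    simp [mul_comm]
  have h3 : ((∑ g, Complex.normSq ((ρ (g ^ k)).trace - (ρ g).trace) : ℝ) : ℂ) =
      ((Fintype.card G * (2 - 2 * m) : ℝ) : ℂ) := by
    push_cast
    have : ∀ g, (Complex.normSq ((ρ (g ^ k)).trace - (ρ g).trace) : ℂ) =
        (ρ (g ^ k)⁻¹).trace * (ρ (g ^ k)).trace + (ρ g⁻¹).trace * (ρ g).trace -
          (ρ (g ^ k)⁻¹).trace * (ρ g).trace - (ρ g⁻¹).trace * (ρ (g ^ k)).trace := by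
      intro g
      rw [Complex.normSq_eq_conj_mul_self, map_sub, conj_rho ρ hn hG, conj_rho ρ hn hG]
      ring
    simp only [this, Finset.sum_sub_distrib, Finset.sum_add_distrib, h1, h2, hm, hirr]
    ring
  have h4 := Complex.ofReal_injective h3
  have h5 : (1 : ℝ) ≤ m := by exact_mod_cast Nat.pos_of_ne_zero hm0
  have h6 : ∑ g, Complex.normSq ((ρ (g ^ k)).trace - (ρ g).trace) = 0 :=
    le_antisymm (by rw [h4]; exact mul_nonpos_of_nonneg_of_nonpos (by positivity) (by linarith))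
      (Finset.sum_nonneg fun g _ => Complex.normSq_nonneg _)
  intro g
  exact sub_eq_zero.mp (Complex.normSq_eq_zero.mp ((Finset.sum_eq_zero_iff_of_nonneg
    fun g _ => Complex.normSq_nonneg _).mp h6 g (Finset.mem_univ g)))

theorem exists_eig [NeZero n] (hn : 1 < n) (hG : ∀ g : G, g ^ n = 1)
    (hirr : ∑ g, (ρ g⁻¹).trace * (ρ g).trace = Fintype.card G)
    (s : (ZMod n)ˣ → ℂ →+* ℂ) (hs : ∀ κ, ∀ z : ℂ, z ^ n = 1 → s κ z = z ^ ex κ)
    (H : Subgroup (ZMod n)ˣ) (hH : ∀ κ, κ ∈ H ↔ ∀ g, (ρ (g ^ ex κ)).trace = (ρ g).trace)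
    {l : ℕ} (hl : l.Prime) (ψ : (ZMod n)ˣ ⧸ H →* ℂˣ) (T : Finset ℕ) (a : ℕ → ℕ)
    (j : ℕ → (ZMod n)ˣ) (hT : ∀ p ∈ T, p.Prime ∧ Inert n p (a p) (ex (j p)) ∧
      (ψ (j p) ≠ 1 ∨ orderOf (j p : (ZMod n)ˣ ⧸ H) = l)) :
    ∃ g θ, θ ^ n = 1 ∧ pr n (ρ g) θ ≠ 0 ∧ ∀ p ∈ T, p ^ a p ∣ orderOf θ := by
  classical
  by_contra hcon
  push Not at hcon
  have hn0 : 0 < n := by omega
  set Φ : G → ℂ := fun g => ∑ x : (ZMod n)ˣ ⧸ H,
    (ψ x : ℂ) * ((ρ g⁻¹).trace * (ρ (g ^ ex x.out)).trace) with hΦ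
  have htot : ∑ g, Φ g = Fintype.card G := by
    rw [hΦ, Finset.sum_comm, Finset.sum_eq_single 1]
    · have h1 : (1 : (ZMod n)ˣ ⧸ H).out ∈ H :=
        (QuotientGroup.eq_one_iff _).mp (QuotientGroup.out_eq' _)
      simp only [map_one, Units.val_one, one_mul, (hH _).mp h1 _, hirr]
    · intro x _ hx
      rw [← Finset.mul_sum, orth ρ hn0 hG hirr (s x.out) _ (hs _), mul_zero]
      intro h
      exact hx (by
        rw [← QuotientGroup.out_eq' x]
        exact (QuotientGroup.eq_one_iff _).mpr ((hH _).mpr h))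
    · simp
  have hconj : ∀ t g : G, (ρ (t * g * t⁻¹)).trace = (ρ g).trace := by
    intro t g
    rw [map_mul, Matrix.trace_mul_comm, ← map_mul, ← mul_assoc, inv_mul_cancel, one_mul]
  obtain ⟨e, m, hm, he⟩ :=
    Nat.exists_eq_pow_mul_and_not_dvd (Fintype.card_ne_zero (α := G)) l hl.ne_one
  obtain ⟨y, ⟨y', hy', rfl⟩, w, hw⟩ := solomon hl (e + 1) Φ (fun t g => by
    simp only [hΦ, conj_pow, conj_inv, hconj]) (lInt l) (by
    intro W _ ⟨c, hc⟩
    have hF : ∀ (o : ℕ) (κ : (ZMod n)ˣ), ∃ m : ℕ, ∑ u : W, (ρ (u : G)⁻¹).trace *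
        (ρ (u ^ ex κ) * prO n (ρ c) o).trace = Fintype.card W * m := by
      intro o κ
      obtain ⟨m, hm⟩ := pair_nat (fun u : W => ρ u) (fun u : W => (ρ u * prO n (ρ c) o).map (s κ))
        (fun u v => by simp) (fun u v => by
          rw [← Matrix.map_mul, mul_assoc, ← mul_assoc (prO _ _ _),
            (prO_commute ρ hn0 hG hc v.2 o).eq, mul_assoc, prO_idem hn0 (rho_pow ρ hG c),
            ← mul_assoc, ← map_mul, Subgroup.coe_mul])
      refine ⟨m, ?_⟩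
      rw [← hm]
      refine Finset.sum_congr rfl fun u _ => ?_
      rw [trace_map', map_trace_idem hn0 (rho_pow ρ hG _) (prO_idem hn0 (rho_pow ρ hG c) o)
        (prO_commute ρ hn0 hG hc u.2 o) _ _ (hs κ), map_pow, Subgroup.coe_inv]
    choose F hF using hF
    have hWc : (Fintype.card W : ℂ) ≠ 0 := by exact_mod_cast Fintype.card_ne_zero
    have hFinv : ∀ o κ κ', (∀ v ∈ W, (ρ (v ^ ex κ') * prO n (ρ c) o).trace =
        (ρ v * prO n (ρ c) o).trace) → F o (κ * κ') = F o κ := by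
      intro o κ κ' h
      have h1 := hF o (κ * κ')
      simp only [pow_ex_mul (hG _), h _ (W.pow_mem (Subtype.prop _) _)] at h1
      rw [hF] at h1
      exact_mod_cast (mul_left_cancel₀ hWc h1).symm
    have hFH : ∀ o κ, F o (QuotientGroup.mk κ : (ZMod n)ˣ ⧸ H).out = F o κ := by
      intro o κ
      obtain ⟨h, hh⟩ := QuotientGroup.mk_out_eq_mul H κ
      rw [hh]
      refine hFinv o κ h fun v hv => ?_
      rw [map_pow, ← map_trace_idem hn0 (rho_pow ρ hG _) (prO_idem hn0 (rho_pow ρ hG c) o)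
        (prO_commute ρ hn0 hG hc hv o) _ _ (hs h)]
      exact prO_fix ρ hn0 _ (fun g => by
        rw [map_trace_rho ρ hn0 hG _ _ (hs h)]; exact (hH _).mp h.2 g) c v o
    refine ⟨∑ o ∈ range (n + 1), ∑ x : (ZMod n)ˣ ⧸ H, (ψ x : ℂ) * F o x.out,
      (lInt l).sum_mem fun o _ => ?_, ?_⟩
    · rcases prO_inert ρ hn0 hG hl T a (fun p => ex (j p)) (fun p hp =>
        ⟨(hT p hp).1, ex_pos hn _, ex_coprime _, (hT p hp).2.1⟩) hcon hc o with h0 | ⟨p, hp, h⟩
      · have : ∀ κ, (F o κ : ℂ) = 0 := fun κ => by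
          have h1 := hF o κ
          simp only [h0, mul_zero, Matrix.trace_zero, Finset.sum_const_zero] at h1
          exact (mul_eq_zero.mp h1.symm).resolve_left hWc
        simp only [this, mul_zero, Finset.sum_const_zero]
        exact (lInt l).zero_mem
      · refine sum_mem_lInt ψ (fun x : (ZMod n)ˣ ⧸ H => F o x.out) (j p : (ZMod n)ˣ) (fun x => ?_) (hT p hp).2.2
        obtain ⟨κ, rfl⟩ := QuotientGroup.mk_surjective x
        simp only [← QuotientGroup.mk_mul, hFH]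
        exact hFinv o κ _ h
    · simp only [hΦ]
      rw [Finset.sum_comm, Finset.sum_comm (s := range (n + 1)), Finset.mul_sum]
      refine Finset.sum_congr rfl fun x _ => ?_
      rw [← Finset.mul_sum, ← Finset.mul_sum, mul_left_comm, Finset.mul_sum (range (n + 1))]
      congr 1
      simp only [← hF]
      rw [Finset.sum_comm]
      refine Finset.sum_congr rfl fun u _ => ?_
      rw [← Finset.mul_sum, ← Matrix.trace_sum, ← Finset.mul_sum, sum_prO hn0, mul_one])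
  have hz : IsIntegral ℤ (∑ g, Φ g * w g) := IsIntegral.sum _ fun g _ =>
    (IsIntegral.sum _ fun x _ => (isIntegral_char ψ x).mul
      ((isIntegral_trace hn0 (rho_pow ρ hG _)).mul (isIntegral_trace hn0 (rho_pow ρ hG _)))).mul
      (isIntegral_intCast _)
  refine hm (dvd_of_mem_lInt hl.pos ⟨m * y' + ∑ g, Φ g * w g,
    ((isIntegral_natCast m).mul hy').add hz, ?_⟩)
  rw [htot, he] at hw
  have hl' : (l : ℂ) ^ e ≠ 0 := pow_ne_zero _ (by exact_mod_cast hl.pos.ne')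
  apply mul_left_cancel₀ hl'
  push_cast at hw
  rw [hw]
  ring

omit [Fintype G] in
lemma relIndex_le [NeZero n] (hG : ∀ g : G, g ^ n = 1)
    (s : (ZMod n)ˣ → ℂ →+* ℂ) (hs : ∀ κ, ∀ z : ℂ, z ^ n = 1 → s κ z = z ^ ex κ)
    {g : G} {θ : ℂ} (hθ : θ ^ n = 1) (h0 : pr n (ρ g) θ ≠ 0) :
    (Kmod n (orderOf θ)).relIndex (stab ρ hG) ≤ Fintype.card ι := by
  classical
  have hn0 : 0 < n := NeZero.pos n
  set H := stab ρ hG
  have hθ0 : θ ≠ 0 := by
    rintro rfl
    simp [hn0.ne'] at hθ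
  set K := (Kmod n (orderOf θ)).subgroupOf H
  have htr : ∀ z, (pr n (ρ g) z).trace =
      (n : ℂ)⁻¹ * ∑ i ∈ range n, z⁻¹ ^ i * (ρ (g ^ i)).trace := by
    intro z
    simp only [pr, Matrix.trace_smul, Matrix.trace_sum, smul_eq_mul, map_pow]
  have hinj : Function.Injective fun q : H ⧸ K => θ ^ ex (q.out : (ZMod n)ˣ) := by
    intro q q' h
    rw [← QuotientGroup.out_eq' q, ← QuotientGroup.out_eq' q', QuotientGroup.eq]
    intro hd
    have h1 : θ ^ ex ((q.out⁻¹ * q'.out : H) : (ZMod n)ˣ) = θ ^ 1 := by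
      simp only at h
      rw [Subgroup.coe_mul, mul_comm, pow_ex_mul hθ, ← h, ← pow_ex_mul hθ, Subgroup.coe_inv,
        mul_inv_cancel, pow_ex_one hθ, pow_one]
    exact (IsOfFinOrder.pow_eq_pow_iff_modEq (isOfFinOrder_iff_pow_eq_one.mpr ⟨n, hn0, hθ⟩)).mp h1
  have := card_eig_le hn0 (rho_pow ρ hG g)
    (Finset.univ.image fun q : H ⧸ K => θ ^ ex (q.out : (ZMod n)ˣ)) (by
      intro z hz
      obtain ⟨q, -, rfl⟩ := Finset.mem_image.mp hz
      refine ⟨by rw [← pow_mul, mul_comm, pow_mul, hθ, one_pow], fun h1 => h0 ?_⟩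
      obtain ⟨m, hm, hm0⟩ := trace_idem (pr n (ρ g) θ) (by
        rw [pr_mul_pr hn0 (rho_pow ρ hG g) hθ hθ, if_pos rfl])
      refine hm0 ?_
      have h2 : s q.out (pr n (ρ g) θ).trace = (pr n (ρ g) (θ ^ ex (q.out : (ZMod n)ˣ))).trace := by
        rw [htr, htr, map_mul, map_inv₀, map_natCast, map_sum]
        congr 1
        refine Finset.sum_congr rfl fun i _ => ?_
        rw [map_mul, map_pow, map_inv₀, hs _ _ hθ, map_trace_rho ρ hn0 hG _ _ (hs _), q.out.2]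
      rw [h1, hm, map_natCast, Matrix.trace_zero] at h2
      exact_mod_cast h2)
  rwa [Finset.card_image_of_injective _ hinj, Finset.card_univ, ← Nat.card_eq_fintype_card] at this

end Pool.Agent.P.MP_fb2360_al
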