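import Mathlib

namespace Pool.Agent.P.MP_fb2360_al

open Finset Matrix

variable {ι : Type} [Fintype ι] [DecidableEq ι]

lemma trace_idem (P : Matrix ι ι ℂ) (h : P * P = P) :
    ∃ m : ℕ, P.trace = m ∧ (m = 0 → P = 0) := by
  have h1 : IsIdempotentElem (Matrix.toLin' P) := by
    unfold IsIdempotentElem
    rw [Module.End.mul_eq_comp, ← Matrix.toLin'_mul, h]
  have h2 := (LinearMap.IsIdempotentElem.isProj_range _ h1).trace
  rw [Matrix.trace_toLin'_eq] at h2
  refine ⟨_, h2, fun h0 => ?_⟩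
  have h3 := Submodule.finrank_eq_zero.mp h0
  rw [LinearMap.range_eq_bot] at h3
  exact Matrix.toLin'.injective (by rw [h3, map_zero])

lemma avg_nat {U : Type*} [Group U] [Fintype U] (τ : U → Matrix ι ι ℂ)
    (hτ : ∀ u v, τ (u * v) = τ u * τ v) :
    ∃ m : ℕ, ∑ u, (τ u).trace = Fintype.card U * m := by
  have hc : (Fintype.card U : ℂ) ≠ 0 := by exact_mod_cast Fintype.card_ne_zero
  set S := ∑ u, τ u with hS
  have h1 : S * S = (Fintype.card U : ℂ) • S := by
    have : ∀ u, τ u * S = S := fun u => by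
      rw [hS, Finset.mul_sum]
      simp only [← hτ]
      exact Equiv.sum_comp (Equiv.mulLeft u) τ
    conv_lhs => rw [hS, Finset.sum_mul]
    rw [← hS]
    simp only [this, Finset.sum_const, Finset.card_univ]
    exact (Nat.cast_smul_eq_nsmul ℂ _ _).symm
  obtain ⟨m, hm, -⟩ := trace_idem ((Fintype.card U : ℂ)⁻¹ • S) (by
    rw [smul_mul_assoc, mul_smul_comm, h1, smul_smul, smul_smul]
    congr 1
    field_simp)
  refine ⟨m, ?_⟩
  rw [← hm, Matrix.trace_smul, hS, Matrix.trace_sum, smul_eq_mul]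
  field_simp

open Kronecker in
lemma pair_nat {U : Type*} [Group U] [Fintype U] (τ σ : U → Matrix ι ι ℂ)
    (hτ : ∀ u v, τ (u * v) = τ u * τ v) (hσ : ∀ u v, σ (u * v) = σ u * σ v) :
    ∃ m : ℕ, ∑ u, (τ u⁻¹).trace * (σ u).trace = Fintype.card U * m := by
  obtain ⟨m, hm⟩ := avg_nat (fun u : U => (τ u⁻¹)ᵀ ⊗ₖ σ u) (fun u v => by
    rw [_root_.mul_inv_rev, hτ, hσ, Matrix.transpose_mul, Matrix.mul_kronecker_mul])
  refine ⟨m, ?_⟩
  rw [← hm]
  simp only [Matrix.trace_kronecker, Matrix.trace_transpose]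

/-- the `n`-th roots of unity -/
noncomputable def rts (n : ℕ) : Finset ℂ := Polynomial.nthRootsFinset n 1

lemma mem_rts {n : ℕ} (hn : 0 < n) {z : ℂ} : z ∈ rts n ↔ z ^ n = 1 :=
  Polynomial.mem_nthRootsFinset hn 1

lemma card_rts {n : ℕ} (hn : 0 < n) : (rts n).card = n :=
  (Complex.isPrimitiveRoot_exp n hn.ne').card_nthRootsFinset

/-- spectral projector -/
noncomputable def pr (n : ℕ) (A : Matrix ι ι ℂ) (z : ℂ) : Matrix ι ι ℂ :=
  (n : ℂ)⁻¹ • ∑ j ∈ range n, (z⁻¹ ^ j) • A ^ j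

lemma geom_root {n : ℕ} (w : ℂ) (hw : w ^ n = 1) :
    ∑ j ∈ range n, w ^ j = if w = 1 then (n : ℂ) else 0 := by
  split_ifs with h
  · simp [h]
  · rw [geom_sum_eq h, hw, sub_self, zero_div]

lemma pow_mul_eig {A X : Matrix ι ι ℂ} {η : ℂ} (h : A * X = η • X) (j : ℕ) :
    A ^ j * X = η ^ j • X := by
  induction j with
  | zero => simp
  | succ j ih => rw [pow_succ, mul_assoc, h, mul_smul_comm, ih, smul_smul, pow_succ']

lemma pr_mul_eig {n : ℕ} (hn : 0 < n) {A X : Matrix ι ι ℂ} {z η : ℂ} (hz : z ^ n = 1)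
    (hη : η ^ n = 1) (h : A * X = η • X) : pr n A z * X = if z = η then X else 0 := by
  have hz0 : z ≠ 0 := by
    rintro rfl
    simp [hn.ne'] at hz
  have hn' : (n : ℂ) ≠ 0 := by exact_mod_cast hn.ne'
  unfold pr
  rw [smul_mul_assoc, Finset.sum_mul]
  simp only [smul_mul_assoc, pow_mul_eig h, smul_smul, ← mul_pow]
  rw [← Finset.sum_smul, geom_root _ (by rw [mul_pow, inv_pow, hz, hη]; simp), smul_smul]
  by_cases hzη : z = η
  · subst hzη
    simp [hz0, hn']
  · rw [if_neg hzη, if_neg, mul_zero, zero_smul]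
    intro h1
    apply hzη
    field_simp at h1
    exact h1.symm

lemma mul_pr {n : ℕ} (hn : 0 < n) {A : Matrix ι ι ℂ} (hA : A ^ n = 1) {z : ℂ} (hz : z ^ n = 1) :
    A * pr n A z = z • pr n A z := by
  have hz0 : z ≠ 0 := by
    rintro rfl
    simp [hn.ne'] at hz
  unfold pr
  rw [mul_smul_comm, smul_comm z]
  congr 1
  rw [Finset.mul_sum, Finset.smul_sum]
  have h1 := Finset.sum_range_succ (fun j => z • (z⁻¹ ^ j) • A ^ j) n
  have h2 := Finset.sum_range_succ' (fun j => z • (z⁻¹ ^ j) • A ^ j) n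
  rw [h1, inv_pow z n, hz, hA] at h2
  simp only [inv_one, one_smul, pow_zero] at h2
  rw [add_right_cancel h2]
  refine Finset.sum_congr rfl fun j _ => ?_
  rw [mul_smul_comm, ← pow_succ', smul_smul, pow_succ' z⁻¹, ← mul_assoc, mul_inv_cancel₀ hz0,
    one_mul]

lemma sum_rts_pow {n : ℕ} (hn : 0 < n) (j : ℕ) (hj : j < n) :
    ∑ z ∈ rts n, z⁻¹ ^ j = if j = 0 then (n : ℂ) else 0 := by
  split_ifs with h
  · simp [h, card_rts hn]
  · have hω := Complex.isPrimitiveRoot_exp n hn.ne'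
    set ω := Complex.exp (2 * Real.pi * Complex.I / n)
    have hω0 : ω ≠ 0 := hω.ne_zero hn.ne'
    have h1 : ∑ z ∈ rts n, (ω * z)⁻¹ ^ j = ∑ z ∈ rts n, z⁻¹ ^ j := by
      refine Finset.sum_nbij' (fun z => ω * z) (fun z => ω⁻¹ * z) ?_ ?_ ?_ ?_ ?_
      · intro z hz
        rw [mem_rts hn] at hz ⊢
        rw [mul_pow, hω.pow_eq_one, hz, one_mul]
      · intro z hz
        rw [mem_rts hn] at hz ⊢
        rw [mul_pow, inv_pow, hω.pow_eq_one, hz, inv_one, one_mul]
      · intro z _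
        field_simp
      · intro z _
        field_simp
      · intro z _
        rfl
    simp only [mul_inv, mul_pow, ← Finset.mul_sum] at h1
    have h2 : ω⁻¹ ^ j ≠ 1 := by
      rw [inv_pow, Ne, inv_eq_one]
      exact hω.pow_ne_one_of_pos_of_lt h hj
    have h3 : (ω⁻¹ ^ j - 1) * ∑ z ∈ rts n, z⁻¹ ^ j = 0 := by rw [sub_mul, h1, one_mul, sub_self]
    exact (mul_eq_zero.mp h3).resolve_left (sub_ne_zero.mpr h2)

lemma sum_pr {n : ℕ} (hn : 0 < n) (A : Matrix ι ι ℂ) : ∑ z ∈ rts n, pr n A z = 1 := by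
  have hn' : (n : ℂ) ≠ 0 := by exact_mod_cast hn.ne'
  unfold pr
  rw [← Finset.smul_sum, Finset.sum_comm]
  simp only [← Finset.sum_smul]
  rw [Finset.sum_eq_single 0]
  · rw [sum_rts_pow hn 0 hn, if_pos rfl, pow_zero, smul_smul, inv_mul_cancel₀ hn', one_smul]
  · intro j hj h0
    rw [sum_rts_pow hn j (Finset.mem_range.mp hj), if_neg h0, zero_smul]
  · intro h
    exact absurd (Finset.mem_range.mpr hn) h

lemma pr_mul_pr {n : ℕ} (hn : 0 < n) {A : Matrix ι ι ℂ} (hA : A ^ n = 1) {z η : ℂ}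
    (hz : z ^ n = 1) (hη : η ^ n = 1) :
    pr n A z * pr n A η = if z = η then pr n A η else 0 :=
  pr_mul_eig hn hz hη (mul_pr hn hA hη)

lemma commute_pr {n : ℕ} {A X : Matrix ι ι ℂ} (h : Commute X A) (z : ℂ) :
    Commute X (pr n A z) := by
  unfold pr
  exact (Commute.sum_right _ _ _ fun j _ => (h.pow_right j).smul_right _).smul_right _

/-- trace of a power on the range of a commuting idempotent -/
lemma trace_pow_idem {n : ℕ} (hn : 0 < n) {A E : Matrix ι ι ℂ} (hA : A ^ n = 1)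
    (hE : E * E = E) (hc : Commute E A) :
    ∃ m : ℂ → ℕ, ∀ k : ℕ, (A ^ k * E).trace = ∑ z ∈ rts n, z ^ k * m z := by
  have : ∀ z : ℂ, ∃ m : ℕ, z ∈ rts n → (pr n A z * E).trace = m := by
    intro z
    by_cases hz : z ∈ rts n
    · obtain ⟨m, hm, -⟩ := trace_idem (pr n A z * E) (by
        have h1 := (commute_pr (n := n) hc z).eq
        rw [mul_assoc, ← mul_assoc E, h1, mul_assoc, hE, ← mul_assoc,
          pr_mul_pr hn hA ((mem_rts hn).mp hz) ((mem_rts hn).mp hz), if_pos rfl])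
      exact ⟨m, fun _ => hm⟩
    · exact ⟨0, fun h => absurd h hz⟩
  choose m hm using this
  refine ⟨m, fun k => ?_⟩
  conv_lhs => rw [← mul_one (A ^ k), ← sum_pr hn A, Finset.mul_sum, Finset.sum_mul, Matrix.trace_sum]
  refine Finset.sum_congr rfl fun z hz => ?_
  rw [pow_mul_eig (mul_pr hn hA ((mem_rts hn).mp hz)), smul_mul_assoc, Matrix.trace_smul, hm z hz,
    smul_eq_mul]

lemma map_trace_idem {n : ℕ} (hn : 0 < n) {A E : Matrix ι ι ℂ} (hA : A ^ n = 1)
    (hE : E * E = E) (hc : Commute E A) (s : ℂ →+* ℂ) (k : ℕ)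
    (hs : ∀ z : ℂ, z ^ n = 1 → s z = z ^ k) : s (A * E).trace = (A ^ k * E).trace := by
  obtain ⟨m, hm⟩ := trace_pow_idem hn hA hE hc
  have h1 := hm 1
  rw [pow_one] at h1
  rw [h1, hm k, map_sum]
  refine Finset.sum_congr rfl fun z hz => ?_
  rw [map_mul, pow_one, hs z ((mem_rts hn).mp hz), map_natCast]

lemma isIntegral_trace {n : ℕ} (hn : 0 < n) {A : Matrix ι ι ℂ} (hA : A ^ n = 1) :
    IsIntegral ℤ A.trace := by
  obtain ⟨m, hm⟩ := trace_pow_idem hn hA (one_mul 1) (Commute.one_left A)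
  have h1 := hm 1
  rw [pow_one, mul_one] at h1
  rw [h1]
  refine IsIntegral.sum _ fun z hz => IsIntegral.mul ?_ ?_
  · rw [pow_one]
    exact IsIntegral.of_pow hn (by rw [(mem_rts hn).mp hz]; exact isIntegral_one)
  · exact isIntegral_natCast _

lemma conj_trace {n : ℕ} (hn : 0 < n) {A : Matrix ι ι ℂ} (hA : A ^ n = 1) :
    (starRingEnd ℂ) A.trace = (A ^ (n - 1)).trace := by
  have := map_trace_idem hn hA (one_mul 1) (Commute.one_left A) (starRingEnd ℂ) (n - 1) (by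
    intro z hz
    have h1 : ‖z‖ = 1 := Complex.norm_eq_one_of_pow_eq_one hz hn.ne'
    have hz0 : z ≠ 0 := by
      rintro rfl
      simp at h1
    rw [← Complex.inv_eq_conj h1]
    apply inv_eq_of_mul_eq_one_right
    rw [← pow_succ', Nat.sub_add_cancel hn, hz])
  simpa using this

/-- the number of eigenvalues is at most the dimension -/
lemma card_eig_le {n : ℕ} (hn : 0 < n) {A : Matrix ι ι ℂ} (hA : A ^ n = 1) (S : Finset ℂ)
    (hS : ∀ z ∈ S, z ^ n = 1 ∧ pr n A z ≠ 0) : S.card ≤ Fintype.card ι := by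
  have : ∀ z : ℂ, ∃ m : ℕ, z ∈ rts n → (pr n A z).trace = m ∧ (m = 0 → pr n A z = 0) := by
    intro z
    by_cases hz : z ∈ rts n
    · obtain ⟨m, hm⟩ := trace_idem (pr n A z) (by
        rw [pr_mul_pr hn hA ((mem_rts hn).mp hz) ((mem_rts hn).mp hz), if_pos rfl])
      exact ⟨m, fun _ => hm⟩
    · exact ⟨0, fun h => absurd h hz⟩
  choose m hm using this
  have h1 := congrArg Matrix.trace (sum_pr hn A)
  rw [Matrix.trace_sum, Matrix.trace_one, Finset.sum_congr rfl fun z hz => (hm z hz).1] at h1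
  have h2 : ∑ z ∈ rts n, m z = Fintype.card ι := by exact_mod_cast h1
  have hsub : S ⊆ rts n := fun z hz => (mem_rts hn).mpr (hS z hz).1
  calc S.card = ∑ z ∈ S, 1 := by simp
    _ ≤ ∑ z ∈ S, m z := Finset.sum_le_sum fun z hz =>
        Nat.pos_of_ne_zero fun h0 => (hS z hz).2 ((hm z (hsub hz)).2 h0)
    _ ≤ ∑ z ∈ rts n, m z := Finset.sum_le_sum_of_subset hsub
    _ = _ := h2

end Pool.Agent.P.MP_fb2360_al
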