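import Pool.Agent.P.MP_fb2360_al.Local

namespace Pool.Agent.P.MP_fb2360_al

open Finset MulAction

universe u

variable {G : Type u} [Group G] [Fintype G]

/-- permutation characters with hyperelementary point stabilisers -/
def PermFn (l : ℕ) (f : G → ℤ) : Prop :=
  ∃ (Ω : Type u) (_ : Finite Ω) (_ : MulAction G Ω), (∀ ω : Ω, Hyp l (stabilizer G ω)) ∧
    ∀ g, f g = Nat.card (fixedBy Ω g)

omit [Fintype G] in
lemma Hyp.mono {l : ℕ} {W W' : Subgroup G} (h : Hyp l W) (hle : W' ≤ W) : Hyp l W' := by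
  obtain ⟨c, h1, h2⟩ := h
  exact ⟨c, h1, fun u hu => h2 u (hle hu)⟩

omit [Fintype G] in
lemma PermFn.mul {l : ℕ} {f f' : G → ℤ} (h : PermFn l f) (h' : PermFn l f') :
    PermFn l (f * f') := by
  obtain ⟨Ω, _, _, h1, h2⟩ := h
  obtain ⟨Ω', _, _, h1', h2'⟩ := h'
  refine ⟨Ω × Ω', inferInstance, inferInstance, fun ω => (h1 ω.1).mono fun g hg => ?_, fun g => ?_⟩
  · exact congrArg Prod.fst hg
  · rw [Pi.mul_apply, h2, h2', ← Nat.cast_mul, ← Nat.card_prod, ← Nat.card_congr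
      (Equiv.Set.prod (fixedBy Ω g) (fixedBy Ω' g))]
    congr 3
    ext ω
    simp [Prod.ext_iff]

omit [Fintype G] in
lemma Hyp.stab {l : ℕ} {U : Subgroup G} (h : Hyp l U) (ω : G ⧸ U) : Hyp l (stabilizer G ω) := by
  obtain ⟨c, h1, h2⟩ := h
  obtain ⟨t, rfl⟩ := QuotientGroup.mk_surjective ω
  refine ⟨t * c * t⁻¹, ?_, fun u hu => ?_⟩
  · have : orderOf (t * c * t⁻¹) = orderOf c :=
      orderOf_injective (MulAut.conj t).toMonoidHom (MulAut.conj t).injective c
    rwa [this]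
  · have hu' : t⁻¹ * u * t ∈ U := by
      have h3 : ((u * t : G) : G ⧸ U) = t := hu
      have := QuotientGroup.eq.mp h3.symm
      rwa [← mul_assoc] at this
    obtain ⟨⟨b, hb⟩, a, j, hj⟩ := h2 _ hu'
    refine ⟨⟨b, ?_⟩, a, j, ?_⟩
    · rw [conj_pow, ← hb]
      group
    · rw [conj_pow, ← hj, ← conj_pow]
      group

lemma exists_permFn {l : ℕ} (hl : l.Prime) (x : G) :
    ∃ f : G → ℤ, PermFn l f ∧ ¬ (l : ℤ) ∣ f x := by
  classical
  have := Fact.mk hl
  obtain ⟨s, r, hr, hs⟩ := Nat.exists_eq_pow_mul_and_not_dvd (orderOf_pos x).ne' l hl.ne_one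
  set c := x ^ l ^ s with hc
  set y := x ^ r with hy
  have hcr : c ^ r = 1 := by rw [hc, ← pow_mul, ← hs, pow_orderOf_eq_one]
  have hys : y ^ l ^ s = 1 := by rw [hy, ← pow_mul, mul_comm, ← hs, pow_orderOf_eq_one]
  have hlc : ¬ l ∣ orderOf c := fun h => hr (h.trans (orderOf_dvd_of_pow_eq_one hcr))
  have hyc : Commute y c := (Commute.refl x).pow_pow _ _
  set C := Subgroup.zpowers c with hC
  set N := Subgroup.normalizer (C : Set G) with hN
  have hyN : y ∈ N := by
    refine Subgroup.mem_normalizer_fintype fun z hz => ?_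
    obtain ⟨k, rfl⟩ := hz
    simp only
    rw [(hyc.zpow_right k).eq, mul_inv_cancel_right]
    exact ⟨k, rfl⟩
  set C' := C.subgroupOf N with hC'
  have : C'.Normal := Subgroup.normal_in_normalizer
  have hp : IsPGroup l (Subgroup.zpowers (QuotientGroup.mk' C' ⟨y, hyN⟩)) := by
    rintro ⟨_, k, rfl⟩
    refine ⟨s, Subtype.ext ?_⟩
    have : (⟨y, hyN⟩ : N) ^ l ^ s = 1 := Subtype.ext hys
    simp only [SubmonoidClass.coe_pow, OneMemClass.coe_one]
    rw [← zpow_natCast, ← zpow_mul, mul_comm, zpow_mul, zpow_natCast, ← map_pow, this, map_one,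
      one_zpow]
  obtain ⟨Q, hQ⟩ := hp.exists_le_sylow
  set U' := (Q : Subgroup (N ⧸ C')).comap (QuotientGroup.mk' C') with hU'
  set U := U'.map N.subtype with hU
  have hCU : ∀ z ∈ C, z ∈ U := by
    intro z hz
    refine ⟨⟨z, Subgroup.le_normalizer hz⟩, ?_, rfl⟩
    have : QuotientGroup.mk' C' ⟨z, Subgroup.le_normalizer hz⟩ = 1 :=
      (QuotientGroup.eq_one_iff _).mpr hz
    simp only [hU', Subgroup.coe_comap, Set.mem_preimage, this, SetLike.mem_coe, one_mem]
  have hpow : ∀ z ∈ C, ∃ j : ℕ, z = c ^ j := fun z hz => by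
    obtain ⟨j, hj⟩ := (mem_powers_iff_mem_zpowers (x := c) (y := z)).mpr hz
    exact ⟨j, hj.symm⟩
  have hH : HypC l U c := by
    refine ⟨hlc, ?_⟩
    rintro _ ⟨u, hu, rfl⟩
    refine ⟨hpow _ ((Subgroup.mem_normalizer_iff.mp u.2 c).mp (Subgroup.mem_zpowers c)), ?_⟩
    obtain ⟨a, ha⟩ := Q.isPGroup' ⟨_, hu⟩
    have h1 : QuotientGroup.mk' C' (u ^ l ^ a) = 1 := by
      rw [map_pow]
      exact congrArg Subtype.val ha
    have h2 : u ^ l ^ a ∈ C' := (QuotientGroup.eq_one_iff (N := C') _).mp h1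
    obtain ⟨j, hj⟩ := hpow _ h2
    exact ⟨a, j, hj⟩
  refine ⟨fun g => Nat.card (fixedBy (G ⧸ U) g),
    ⟨G ⧸ U, inferInstance, inferInstance, Hyp.stab ⟨c, hH⟩, fun _ => rfl⟩, ?_⟩
  have hpre : QuotientGroup.mk ⁻¹' fixedBy (G ⧸ U) c = N := by
    ext t
    have e : t ∈ QuotientGroup.mk ⁻¹' fixedBy (G ⧸ U) c ↔ t⁻¹ * c * t ∈ U := by
      change ((c * t : G) : G ⧸ U) = t ↔ _
      rw [eq_comm, QuotientGroup.eq, mul_assoc]
    rw [e, SetLike.mem_coe]
    constructor
    · intro hw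
      obtain ⟨a, j, hj⟩ := (hH.2 _ hw).2
      have ho : orderOf (t⁻¹ * c * t) = orderOf c := by
        have := orderOf_injective (MulAut.conj t⁻¹).toMonoidHom (MulAut.conj t⁻¹).injective c
        simpa using this
      obtain ⟨m, hm⟩ := exists_pow_eq_self_of_coprime (x := t⁻¹ * c * t) (n := l ^ a)
        (ho ▸ ((Nat.Prime.coprime_iff_not_dvd hl).mpr hlc).pow_left a)
      have hwC : t⁻¹ * c * t ∈ C := by
        rw [← hm, hj]
        exact C.pow_mem (C.pow_mem (Subgroup.mem_zpowers c) _) _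
      rw [← N.inv_mem_iff]
      refine Subgroup.mem_normalizer_fintype fun z hz => ?_
      obtain ⟨j, rfl⟩ := hpow z hz
      rw [← conj_pow, inv_inv]
      exact C.pow_mem hwC _
    · intro ht
      exact hCU _ ((Subgroup.mem_normalizer_iff''.mp ht c).mp (Subgroup.mem_zpowers c))
  have hcard : Nat.card (fixedBy (G ⧸ U) c) = (Q : Subgroup (N ⧸ C')).index := by
    have h1 := QuotientGroup.card_preimage_mk U (fixedBy (G ⧸ U) c)
    rw [hpre] at h1
    have h2 := U'.card_mul_index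
    have h3 : Nat.card U = Nat.card U' := Subgroup.card_map_of_injective N.subtype_injective
    rw [hU', Subgroup.index_comap_of_surjective _ (QuotientGroup.mk'_surjective C'), ← hU',
      ← h3] at h2
    exact Nat.eq_of_mul_eq_mul_left Nat.card_pos (h1.symm.trans h2.symm)
  let φ : Function.End (fixedBy (G ⧸ U) c) := fun ω => ⟨y • ω.1, by
    have : c • ω.1 = ω.1 := ω.2
    change c • y • ω.1 = y • ω.1
    rw [← mul_smul, ← hyc.eq, mul_smul, this]⟩
  have hφ : ∀ (k : ℕ) ω, ((φ ^ k) ω).1 = y ^ k • ω.1 := by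
    intro k
    induction k with
    | zero => intro ω; rw [pow_zero, pow_zero, one_smul]; rfl
    | succ k ih => intro ω; rw [pow_succ', pow_succ', mul_smul, ← ih]; rfl
  have hφ1 : φ ^ l ^ s = 1 := by
    funext ω
    refine Subtype.ext ?_
    rw [hφ, hys, one_smul]
    rfl
  have : Fintype (fixedBy (G ⧸ U) c) := Fintype.ofFinite _
  have hmod := Equiv.Perm.card_fixedPoints_modEq hφ1
  rw [← Nat.card_eq_fintype_card, ← Nat.card_eq_fintype_card, hcard] at hmod
  have hfix : Nat.card (Function.fixedPoints φ) = Nat.card (fixedBy (G ⧸ U) x) := by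
    have hbez : ∃ i j : ℤ, x = c ^ i * y ^ j := by
      have hco : IsCoprime ((l ^ s : ℕ) : ℤ) (r : ℤ) :=
        Nat.isCoprime_iff_coprime.mpr (((Nat.Prime.coprime_iff_not_dvd hl).mpr hr).pow_left s)
      obtain ⟨i, j, hij⟩ := hco
      refine ⟨i, j, ?_⟩
      rw [hc, hy, ← zpow_natCast, ← zpow_natCast, ← zpow_mul, ← zpow_mul, ← zpow_add, mul_comm _ i,
        mul_comm _ j, hij, zpow_one]
    obtain ⟨i, j, hij⟩ := hbez
    refine Nat.card_congr
      { toFun := fun ω => ⟨ω.1.1, ?_⟩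
        invFun := fun ω => ⟨⟨ω.1, ?_⟩, Subtype.ext ?_⟩
        left_inv := fun _ => rfl
        right_inv := fun _ => rfl }
    · have h1 : c ∈ stabilizer G ω.1.1 := ω.1.2
      have h2 : y ∈ stabilizer G ω.1.1 := congrArg Subtype.val ω.2
      have h3 : x ∈ stabilizer G ω.1.1 := by
        rw [hij]
        exact mul_mem (zpow_mem h1 _) (zpow_mem h2 _)
      exact h3
    · have h3 : x ∈ stabilizer G ω.1 := ω.2
      exact pow_mem h3 _
    · have h3 : x ∈ stabilizer G ω.1 := ω.2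
      exact pow_mem h3 r
  rw [hfix] at hmod
  intro hd
  exact Q.not_dvd_index ((hmod.dvd_iff dvd_rfl).mpr (Int.natCast_dvd_natCast.mp hd))

lemma PermFn.sum_mem {l : ℕ} {f : G → ℤ} (h : PermFn l f) (Φ : G → ℂ)
    (hΦ : ∀ t g, Φ (t * g * t⁻¹) = Φ g) (I : AddSubgroup ℂ)
    (hW : ∀ (W : Subgroup G) [Fintype W], Hyp l W →
      ∃ y ∈ I, ∑ u : W, Φ u = Fintype.card W * y) :
    ∃ y ∈ I, ∑ g, Φ g * f g = Fintype.card G * y := by
  classical
  obtain ⟨Ω, _, _, h1, h2⟩ := h
  have := Fintype.ofFinite Ω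
  set S : Ω → ℂ := fun ω => ∑ g, if g • ω = ω then Φ g else 0 with hS
  have e1 : ∑ g, Φ g * f g = ∑ ω, S ω := by
    rw [hS, Finset.sum_comm]
    refine Finset.sum_congr rfl fun g _ => ?_
    rw [h2, ← Finset.sum_filter, Finset.sum_const, nsmul_eq_mul, mul_comm, Int.cast_natCast,
      Nat.card_eq_fintype_card, Fintype.card_subtype]
    rfl
  have e2 : ∀ (t : G) ω, S (t • ω) = S ω := by
    intro t ω
    simp only [hS]
    rw [← Equiv.sum_comp (MulAut.conj t).toEquiv]
    refine Finset.sum_congr rfl fun g _ => ?_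
    simp [hΦ, mul_smul]
  have e3 : ∀ ω, ∃ y ∈ I, S ω = Nat.card (stabilizer G ω) * y := by
    intro ω
    obtain ⟨y, hy, h3⟩ := hW _ (h1 ω)
    refine ⟨y, hy, ?_⟩
    rw [Nat.card_eq_fintype_card, ← h3]
    simp only [hS]
    rw [← Finset.sum_filter]
    exact Finset.sum_subtype _ (by simp) _
  choose y hy e3 using e3
  refine ⟨∑ O : orbitRel.Quotient G Ω, y O.out, I.sum_mem fun O _ => hy _, ?_⟩
  rw [e1, ← Finset.sum_fiberwise (s := Finset.univ)
    (g := fun ω : Ω => (Quotient.mk'' ω : orbitRel.Quotient G Ω)), Finset.mul_sum]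
  refine Finset.sum_congr rfl fun O _ => ?_
  have e4 : ∀ ω, (Quotient.mk'' ω : orbitRel.Quotient G Ω) = O ↔ ω ∈ orbit G O.out := by
    intro ω
    rw [← orbitRel_apply, ← Quotient.eq'', Quotient.out_eq']
  rw [Finset.sum_congr rfl (g := fun _ => S O.out) (fun ω hω => by
    obtain ⟨t, rfl⟩ := (e4 ω).mp (Finset.mem_filter.mp hω).2
    exact e2 t _), Finset.sum_const, nsmul_eq_mul, e3, ← mul_assoc,
    ← card_orbit_mul_card_stabilizer_eq_card_group G O.out, Nat.card_eq_fintype_card,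
    Nat.cast_mul, Fintype.card_subtype (fun x => x ∈ orbit G O.out)]
  simp only [e4]

theorem solomon {l : ℕ} (hl : l.Prime) (M : ℕ) (Φ : G → ℂ)
    (hΦ : ∀ t g, Φ (t * g * t⁻¹) = Φ g) (I : AddSubgroup ℂ)
    (hW : ∀ (W : Subgroup G) [Fintype W], Hyp l W →
      ∃ y ∈ I, ∑ u : W, Φ u = Fintype.card W * y) :
    ∃ y ∈ I, ∃ w : G → ℤ, ∑ g, Φ g = Fintype.card G * y + l ^ M * ∑ g, Φ g * w g := by
  have := Fact.mk hl
  set R := NonUnitalSubring.closure {f : G → ℤ | PermFn l f} with hR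
  have hRI : ∀ r ∈ R, ∃ y ∈ I, ∑ g, Φ g * r g = Fintype.card G * y := by
    intro r hr
    rw [hR, NonUnitalSubring.mem_closure_iff] at hr
    induction hr using AddSubgroup.closure_induction with
    | mem f hf =>
      have : PermFn l f := by
        induction hf using Subsemigroup.closure_induction with
        | mem f hf => exact hf
        | mul f f' _ _ h h' => exact h.mul h'
      exact this.sum_mem Φ hΦ I hW
    | zero => exact ⟨0, I.zero_mem, by simp⟩
    | add f f' _ _ h h' =>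
      obtain ⟨y, hy, h⟩ := h
      obtain ⟨y', hy', h'⟩ := h'
      exact ⟨y + y', I.add_mem hy hy', by simp [mul_add, Finset.sum_add_distrib, h, h']⟩
    | neg f _ h =>
      obtain ⟨y, hy, h⟩ := h
      exact ⟨-y, I.neg_mem hy, by simp [h]⟩
  choose f hf hfx using fun x : G => exists_permFn hl x
  have hmul : ∀ w w' : G → ℤ, 1 - w ∈ R → 1 - w' ∈ R → 1 - w * w' ∈ R := by
    intro w w' h h'
    have : 1 - w * w' = (1 - w) + (1 - w') - (1 - w) * (1 - w') := by ring
    rw [this]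
    exact R.sub_mem (R.add_mem h h') (R.mul_mem h h')
  have hone : (1 - 1 : G → ℤ) ∈ R := by rw [sub_self]; exact R.zero_mem
  have hpowR : ∀ r ∈ R, ∀ k : ℕ, r ^ (k + 1) ∈ R := by
    intro r hr k
    induction k with
    | zero => simpa using hr
    | succ k ih => rw [pow_succ]; exact R.mul_mem ih hr
  set w0 : G → ℤ := ∏ x, (1 - f x ^ (l - 1)) with hw0
  have h0 : 1 - w0 ∈ R := by
    refine Finset.prod_induction _ (fun w => 1 - w ∈ R) hmul hone fun x _ => ?_
    rw [sub_sub_cancel, show l - 1 = l - 2 + 1 by have := hl.two_le; omega]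
    exact hpowR _ (NonUnitalSubring.subset_closure (hf x)) _
  have h1 : 1 - w0 ^ M ∈ R := by
    induction M with
    | zero => simp
    | succ M ih => rw [pow_succ]; exact hmul _ _ ih h0
  have h2 : ∀ g, (l : ℤ) ∣ w0 g := by
    intro g
    rw [hw0, Finset.prod_apply]
    refine Dvd.dvd.trans ?_ (Finset.dvd_prod_of_mem _ (Finset.mem_univ g))
    rw [← ZMod.intCast_zmod_eq_zero_iff_dvd]
    have := ZMod.pow_card_sub_one_eq_one (a := (f g g : ZMod l))
      (by rw [Ne, ZMod.intCast_zmod_eq_zero_iff_dvd]; exact hfx g)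
    simp [this]
  choose w hw using h2
  obtain ⟨y, hy, h3⟩ := hRI _ h1
  refine ⟨y, hy, fun g => w g ^ M, ?_⟩
  rw [← h3, Finset.mul_sum, ← Finset.sum_add_distrib]
  refine Finset.sum_congr rfl fun g _ => ?_
  simp only [Pi.sub_apply, Pi.one_apply, Pi.pow_apply, hw g]
  push_cast
  ring

end Pool.Agent.P.MP_fb2360_al
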